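import Pool.Agent.Helper51.USM.NUM

/-! # The basis generates a spreading model -/

namespace USM

open Finset

theorem bas_pr_single (g : ℕ →₀ ℝ) (p : ℕ) : pr g (Pi.single p 1) = g p := by
  classical
  rw [pr_eq_sum]
  by_cases hp : p ∈ g.support
  · rw [Finset.sum_eq_single p]
    · simp
    · intro q _ hq
      rw [Pi.single_eq_of_ne hq, mul_zero]
    · intro h
      exact absurd hp h
  · rw [Finset.sum_eq_zero]
    · exact (Finsupp.notMem_support_iff.1 hp).symm
    · intro q hq
      have hne : q ≠ p := fun h => hp (h ▸ hq)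
      rw [Pi.single_eq_of_ne hne, mul_zero]

theorem bas_pr {n : ℕ} (g : ℕ →₀ ℝ) (a : Fin n → ℝ) (u : Fin n → ℕ) :
    pr g (∑ i, a i • (Pi.single (u i) 1 : ℕ → ℝ)) = ∑ i, a i * g (u i) := by
  rw [pr_sum]
  exact Finset.sum_congr rfl fun i _ => by rw [pr_smul, bas_pr_single]

theorem bas_abs {s : ℕ} {A : Finset ℕ} {f : ℕ → ℕ →₀ ℝ} {ind : ℕ → ℕ∞} (hc : Chain A f ind)
    (i : ℕ) : |(w s • ∑ j ∈ A, f j) i| ≤ w s := by
  rw [Finsupp.smul_apply, Finsupp.finsetSum_apply, smul_eq_mul, abs_mul, abs_of_pos (w_pos s)]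
  have h2 : |∑ j ∈ A, f j i| ≤ 1 := by
    by_cases hz : ∃ j ∈ A, f j i ≠ 0
    · obtain ⟨j, hj, hji⟩ := hz
      rw [Finset.sum_eq_single j]
      · exact (hc.mem j hj).abs_le i
      · intro k hk hkj
        by_contra hne
        rcases lt_or_gt_of_ne hkj with hlt | hlt
        · exact lt_irrefl i (hc.lt k hk j hj hlt i (Finsupp.mem_support_iff.2 hne) i
            (Finsupp.mem_support_iff.2 hji))
        · exact lt_irrefl i (hc.lt j hj k hk hlt i (Finsupp.mem_support_iff.2 hji) i
            (Finsupp.mem_support_iff.2 hne))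
      · intro hj'
        exact absurd hj hj'
    · push Not at hz
      rw [Finset.sum_eq_zero hz]
      simp
  calc w s * |∑ j ∈ A, f j i| ≤ w s * 1 := mul_le_mul_of_nonneg_left h2 (w_pos s).le
    _ = w s := mul_one _

theorem bas_single {n : ℕ} (a : Fin n → ℝ) (u : Fin n → ℕ) (hu : StrictMono u) (i : Fin n)
    (s : ℝ) : ∑ l, a l * (Finsupp.single (u i) s : ℕ →₀ ℝ) (u l) = a i * s := by
  rw [Finset.sum_eq_single i]
  · rw [Finsupp.single_eq_same]
  · intro l _ hl
    rw [Finsupp.single_eq_of_ne (fun h => hl (hu.injective h)), mul_zero]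
  · intro h
    exact absurd (Finset.mem_univ i) h

theorem bas_basis {n : ℕ} (a : Fin n → ℝ) (u v : Fin n → ℕ) (hu : StrictMono u)
    (hv : StrictMono v) (p : ℕ) (s : ℝ) (hs : |s| ≤ 1) :
    ∃ h : ℕ →₀ ℝ, IsW ⊤ h ∧
      (∀ q ∈ h.support, ∃ i, q = u i ∧ v i ∈ (Finsupp.single p s : ℕ →₀ ℝ).support) ∧
      ∑ i, a i * (Finsupp.single p s : ℕ →₀ ℝ) (v i) ≤ ∑ i, a i * h (u i) := by
  by_cases hp : ∃ i, v i = p
  · obtain ⟨i, rfl⟩ := hp
    refine ⟨Finsupp.single (u i) s, IsW.basis _ _ hs, fun q hq => ⟨i, ?_, ?_⟩, ?_⟩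
    · rw [Finsupp.mem_support_iff] at hq
      by_contra hne
      exact hq (Finsupp.single_eq_of_ne hne)
    · rw [Finsupp.mem_support_iff] at hq ⊢
      intro h0
      rw [Finsupp.single_eq_same] at h0
      apply hq
      rw [h0, Finsupp.single_zero, Finsupp.zero_apply]
    · rw [bas_single a u hu, bas_single a v hv]
  · refine ⟨0, IsW.zero, fun q hq => by simp at hq, ?_⟩
    rw [Finset.sum_eq_zero]
    · simp
    · intro i _
      rw [Finsupp.single_eq_of_ne (fun h => hp ⟨i, h⟩), mul_zero]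

theorem bas_big {n : ℕ} (a : Fin n → ℝ) (u v : Fin n → ℕ) (hu : StrictMono u)
    (hv : StrictMono v) {t : ℕ∞} {f : ℕ →₀ ℝ} (hf : IsW t f) (ht : ((n + 1 : ℕ) : ℕ∞) < t) :
    ∃ h : ℕ →₀ ℝ, IsW ⊤ h ∧ (∀ q ∈ h.support, ∃ i, q = u i ∧ v i ∈ f.support) ∧
      ∑ i, a i * f (v i) ≤ ∑ i, a i * h (u i) := by
  classical
  rcases hf.cases' with ⟨-, p, s, hs, rfl⟩ | ⟨s, A, g, ind, rfl, -, hc, rfl⟩
  · exact bas_basis a u v hu hv p s hs
  · set F : ℕ →₀ ℝ := w s • ∑ j ∈ A, g j with hF
    have hs : n + 1 ≤ s := by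
      have : n + 1 < s := by exact_mod_cast ht
      exact this.le
    set I : Finset (Fin n) := Finset.univ.filter (fun i => v i ∈ F.support) with hI
    have hsum : ∑ i, a i * F (v i) = ∑ i ∈ I, a i * F (v i) := by
      symm
      refine Finset.sum_subset (Finset.subset_univ _) fun i _ hi => ?_
      have : v i ∉ F.support := fun h => hi (by rw [hI, Finset.mem_filter]; exact ⟨Finset.mem_univ _, h⟩)
      rw [Finsupp.notMem_support_iff.1 this, mul_zero]
    rcases I.eq_empty_or_nonempty with h0 | hne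
    · refine ⟨0, IsW.zero, fun q hq => by simp at hq, ?_⟩
      rw [hsum, h0]
      simp
    · obtain ⟨m, hm, hmax⟩ := Finset.exists_max_image I (fun i => |a i|) hne
      have hmF : v m ∈ F.support := by
        rw [hI, Finset.mem_filter] at hm
        exact hm.2
      have h1 : ∑ i ∈ I, a i * F (v i) ≤ |a m| := by
        have h2 : ∑ i ∈ I, a i * F (v i) ≤ ∑ i ∈ I, |a m| * w s := by
          refine Finset.sum_le_sum fun i hi => ?_
          calc a i * F (v i) ≤ |a i * F (v i)| := le_abs_self _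
            _ = |a i| * |F (v i)| := abs_mul _ _
            _ ≤ |a m| * w s := mul_le_mul (hmax i hi) (bas_abs hc _) (abs_nonneg _) (abs_nonneg _)
        have h3 : ∑ i ∈ I, |a m| * w s = (I.card : ℝ) * (|a m| * w s) := by
          rw [Finset.sum_const, nsmul_eq_mul]
        have h4 : (I.card : ℝ) ≤ (n : ℝ) := by
          have := Finset.card_le_univ I
          rw [Fintype.card_fin] at this
          exact_mod_cast this
        have h5 : (n : ℝ) * w s ≤ 1 := by
          have h6 := num_w_sq hs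
          have h7 : (n : ℝ) ≤ (n : ℝ) ^ 2 := by
            rcases Nat.eq_zero_or_pos n with h | h
            · subst h; simp
            · have : (1 : ℝ) ≤ (n : ℝ) := by exact_mod_cast h
              nlinarith
          calc (n : ℝ) * w s ≤ (n : ℝ) ^ 2 * w s := mul_le_mul_of_nonneg_right h7 (w_pos s).le
            _ ≤ 1 := h6
        have h8 : 0 ≤ |a m| * w s := mul_nonneg (abs_nonneg _) (w_pos s).le
        calc ∑ i ∈ I, a i * F (v i) ≤ (I.card : ℝ) * (|a m| * w s) := by rw [← h3]; exact h2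
          _ ≤ (n : ℝ) * (|a m| * w s) := mul_le_mul_of_nonneg_right h4 h8
          _ = |a m| * ((n : ℝ) * w s) := by ring
          _ ≤ |a m| * 1 := mul_le_mul_of_nonneg_left h5 (abs_nonneg _)
          _ = |a m| := mul_one _
      have hsgn : ∃ s : ℝ, |s| ≤ 1 ∧ a m * s = |a m| := by
        rcases le_total 0 (a m) with h | h
        · exact ⟨1, by simp, by rw [abs_of_nonneg h, mul_one]⟩
        · exact ⟨-1, by simp, by rw [abs_of_nonpos h]; ring⟩
      obtain ⟨σ, hσ, hσ'⟩ := hsgn
      refine ⟨Finsupp.single (u m) σ, IsW.basis _ _ hσ, fun q hq => ⟨m, ?_, hmF⟩, ?_⟩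
      · rw [Finsupp.mem_support_iff] at hq
        by_contra hne
        exact hq (Finsupp.single_eq_of_ne hne)
      · rw [bas_single a u hu, hσ', hsum]
        exact h1

theorem bas_claim {n : ℕ} (a : Fin n → ℝ) (u v : Fin n → ℕ) (hu : StrictMono u)
    (hv : StrictMono v) (hv' : ∀ i, n + 1 ≤ v i) {r : ℕ∞} {g : ℕ →₀ ℝ} (hg : IsW r g) :
    ∃ (r' : ℕ∞) (g' : ℕ →₀ ℝ), IsW r' g' ∧
      (∀ q ∈ g'.support, ∃ i, q = u i ∧ v i ∈ g.support) ∧
      ∑ i, a i * g (v i) ≤ ∑ i, a i * g' (u i) := by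
  classical
  refine IsW.induct (P := fun g => ∃ (r' : ℕ∞) (g' : ℕ →₀ ℝ), IsW r' g' ∧
      (∀ q ∈ g'.support, ∃ i, q = u i ∧ v i ∈ g.support) ∧
      ∑ i, a i * g (v i) ≤ ∑ i, a i * g' (u i)) ?_ ?_ hg
  · intro p s hs
    exact ⟨⊤, bas_basis a u v hu hv p s hs⟩
  · intro s A f ind hA hc ih
    have hrw : ∀ i, (w s • ∑ j ∈ A, f j) (v i) = w s * ∑ j ∈ A, f j (v i) := by
      intro i
      rw [Finsupp.smul_apply, Finsupp.finsetSum_apply, smul_eq_mul]
    have hS : ∑ i, a i * (w s • ∑ j ∈ A, f j) (v i) = w s * ∑ j ∈ A, ∑ i, a i * f j (v i) := by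
      rw [Finset.sum_comm, Finset.mul_sum]
      refine Finset.sum_congr rfl fun i _ => ?_
      rw [hrw, Finset.mul_sum, Finset.mul_sum, Finset.mul_sum]
      refine Finset.sum_congr rfl fun j _ => ?_
      ring
    have hsup : ∀ j ∈ A, ∀ q ∈ (f j).support, q ∈ (w s • ∑ j ∈ A, f j).support := by
      intro j hj q hq
      rw [Finsupp.mem_support_iff] at hq ⊢
      rw [Finsupp.smul_apply, Finsupp.finsetSum_apply, smul_eq_mul]
      refine mul_ne_zero (w_pos s).ne' ?_
      rw [Finset.sum_eq_single j]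
      · exact hq
      · intro k hk hkj
        by_contra hne
        rcases lt_or_gt_of_ne hkj with hlt | hlt
        · exact lt_irrefl q (hc.lt k hk j hj hlt q (Finsupp.mem_support_iff.2 hne) q
            (Finsupp.mem_support_iff.2 hq))
        · exact lt_irrefl q (hc.lt j hj k hk hlt q (Finsupp.mem_support_iff.2 hq) q
            (Finsupp.mem_support_iff.2 hne))
      · intro h
        exact absurd hj h
    set M : Finset ℕ := A.filter (fun j => ∃ i, v i ∈ (f j).support) with hM
    have hzero : ∀ j ∈ A, j ∉ M → ∑ i, a i * f j (v i) = 0 := by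
      intro j hj hjM
      refine Finset.sum_eq_zero fun i _ => ?_
      have : v i ∉ (f j).support := fun h => hjM (by
        rw [hM, Finset.mem_filter]
        exact ⟨hj, i, h⟩)
      rw [Finsupp.notMem_support_iff.1 this, mul_zero]
    rcases M.eq_empty_or_nonempty with h0 | hne
    · refine ⟨⊤, 0, IsW.zero, fun q hq => by simp at hq, ?_⟩
      rw [hS, Finset.sum_eq_zero]
      · simp
      · intro j hj
        exact hzero j hj (by rw [h0]; exact Finset.notMem_empty j)
    · set j0 := M.min' hne with hj0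
      have hj0M : j0 ∈ M := Finset.min'_mem M hne
      have hj0A : j0 ∈ A := (Finset.mem_filter.1 hj0M).1
      obtain ⟨i0, hi0⟩ := (Finset.mem_filter.1 hj0M).2
      have hlt0 : ∀ j ∈ A, j < j0 → j ∉ M := fun j _ hjlt hjM =>
        absurd (Finset.min'_le M j hjM) (not_le.2 hjlt)

      have hch : ∀ j, ∃ (r' : ℕ∞) (g' : ℕ →₀ ℝ), j ∈ A → (IsW r' g' ∧
          (∀ q ∈ g'.support, ∃ i, q = u i ∧ v i ∈ (f j).support) ∧
          ∑ i, a i * f j (v i) ≤ ∑ i, a i * g' (u i) ∧ (j < j0 → g' = 0) ∧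
          (j0 < j → r' = ⊤)) := by
        intro j
        by_cases hj : j ∈ A
        · rcases lt_trichotomy j j0 with h | h | h
          · refine ⟨⊤, 0, fun _ => ⟨IsW.zero, fun q hq => by simp at hq, ?_, fun _ => rfl,
              fun _ => rfl⟩⟩
            rw [hzero j hj (hlt0 j hj h)]
            simp
          · obtain ⟨r', g', h1, h2, h3⟩ := ih j hj
            exact ⟨r', g', fun _ => ⟨h1, h2, h3, fun h' => absurd h' (by omega),
              fun h' => absurd h' (by omega)⟩⟩
          · have hbig : ((n + 1 : ℕ) : ℕ∞) < ind j := by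
              have h1 := hc.grow j0 hj0A j hj h (v i0) hi0
              have h2 : ((n + 1 : ℕ) : ℕ∞) ≤ ((v i0 : ℕ) : ℕ∞) := by exact_mod_cast hv' i0
              exact lt_of_le_of_lt h2 h1
            obtain ⟨g', h1, h2, h3⟩ := bas_big a u v hu hv (hc.mem j hj) hbig
            exact ⟨⊤, g', fun _ => ⟨h1, h2, h3, fun h' => absurd h' (by omega), fun _ => rfl⟩⟩
        · exact ⟨⊤, 0, fun h => absurd h hj⟩
      choose R G hRG using hch
      refine ⟨s, w s • ∑ j ∈ A, G j, ?_, ?_, ?_⟩
      · refine IsW.comp s A hA G R (fun j hj => (hRG j hj).1) ?_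
        intro i hi j hj hij p hp
        obtain ⟨l, rfl, hl⟩ := (hRG i hi).2.1 p hp
        have hi0' : ¬ i < j0 := by
          intro h
          rw [(hRG i hi).2.2.2.1 h] at hp
          simp at hp
        refine ⟨fun q hq => ?_, ?_⟩
        · obtain ⟨l', rfl, hl'⟩ := (hRG j hj).2.1 q hq
          have h1 := hc.lt i hi j hj hij (v l) hl (v l') hl'
          exact hu (hv.lt_iff_lt.1 h1)
        · rw [(hRG j hj).2.2.2.2 (by omega)]
          exact ENat.natCast_lt_top _
      · intro q hq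
        have : ∃ j ∈ A, q ∈ (G j).support := by
          by_contra hcon
          push Not at hcon
          rw [Finsupp.mem_support_iff] at hq
          apply hq
          rw [Finsupp.smul_apply, Finsupp.finsetSum_apply, Finset.sum_eq_zero, smul_zero]
          intro j hj
          exact Finsupp.notMem_support_iff.1 (hcon j hj)
        obtain ⟨j, hj, hqj⟩ := this
        obtain ⟨i, hi, hi'⟩ := (hRG j hj).2.1 q hqj
        exact ⟨i, hi, hsup j hj _ hi'⟩
      · have hS' : ∑ i, a i * (w s • ∑ j ∈ A, G j) (u i) =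
            w s * ∑ j ∈ A, ∑ i, a i * G j (u i) := by
          rw [Finset.sum_comm, Finset.mul_sum]
          refine Finset.sum_congr rfl fun i _ => ?_
          rw [Finsupp.smul_apply, Finsupp.finsetSum_apply, smul_eq_mul, Finset.mul_sum,
            Finset.mul_sum, Finset.mul_sum]
          refine Finset.sum_congr rfl fun j _ => ?_
          ring
        rw [hS, hS']
        exact mul_le_mul_of_nonneg_left (Finset.sum_le_sum fun j hj => (hRG j hj).2.2.1)
          (w_pos s).le

theorem basis_spread {n : ℕ} (a : Fin n → ℝ) (u v : Fin n → ℕ) (hu : StrictMono u)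
    (hv : StrictMono v) (hu' : ∀ i, n + 1 ≤ u i) (hv' : ∀ i, n + 1 ≤ v i) (T : ℝ)
    (h : NB (∑ i, a i • (Pi.single (u i) 1 : ℕ → ℝ)) T) :
    NB (∑ i, a i • (Pi.single (v i) 1 : ℕ → ℝ)) T := by
  intro r g hg
  obtain ⟨r', g', h1, -, h3⟩ := bas_claim a u v hu hv hv' hg
  rw [bas_pr]
  refine h3.trans ?_
  rw [← bas_pr]
  exact h r' g' h1

end USM
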