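import Pool.Agent.Helper51.USM.LOW1

/-! # The lower estimate for a subsequence -/

namespace USM

theorem low2_dich (y : ℕ → ℕ → ℝ) (hk : ∀ k p, y k p ≠ 0 → k ≤ p)
    (hlow : ∀ k, ∃ (r : ℕ∞) (f : ℕ →₀ ℝ), IsW r f ∧ 1 / 2 ≤ pr f (y k)) :
    ∃ δ : ℝ, 0 < δ ∧ ∀ T K : ℕ, ∃ k, K ≤ k ∧ ∃ (r : ℕ∞) (g : ℕ →₀ ℝ), IsW r g ∧ (T : ℕ∞) ≤ r ∧
      δ ≤ pr g (y k) ∧ ∀ p ∈ g.support, y k p ≠ 0 := by
  classical
  have key : ∃ δ : ℝ, 0 < δ ∧ ∀ T K : ℕ, ∃ k, K ≤ k ∧ ∃ (r : ℕ∞) (g : ℕ →₀ ℝ), IsW r g ∧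
      (T : ℕ∞) ≤ r ∧ δ ≤ pr g (y k) := by
    by_cases h : ∀ S K : ℕ, ∃ k, K ≤ k ∧ ∃ (r' : ℕ∞) (g : ℕ →₀ ℝ), IsW r' g ∧ (S : ℕ∞) ≤ r' ∧
        1 / 2 ≤ pr g (y k)
    · exact ⟨1 / 2, by norm_num, h⟩
    · push Not at h
      obtain ⟨S, K0, hS⟩ := h
      refine ⟨1 / 2 / (L S : ℝ), div_pos (by norm_num) (L_pos' S), fun T K => ?_⟩
      refine ⟨max K0 (max T K), (le_max_right _ _).trans (le_max_right _ _), ?_⟩
      obtain ⟨r, f, hf, hfy⟩ := hlow (max K0 (max T K))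
      rcases dicho (max K0 (max T K)) (y (max K0 (max T K))) (hk _) (1 / 2) (by norm_num) S hf hfy
        with ⟨r', g, hg, hr', hgy⟩ | ⟨r', g, hg, hr', hgy⟩
      · exact absurd hgy (not_le.2 (hS _ (le_max_left _ _) r' g hg hr'))
      · refine ⟨r', g, hg, le_trans ?_ hr', hgy⟩
        exact_mod_cast (le_max_left T K).trans (le_max_right K0 _)
  obtain ⟨δ, hδ, H⟩ := key
  refine ⟨δ, hδ, fun T K => ?_⟩
  obtain ⟨k, hK, r, g, hg, hr, hgy⟩ := H T K
  refine ⟨k, hK, r, g.filter (fun p => y k p ≠ 0), hg.filter _, hr, ?_, ?_⟩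
  · rw [pr_filter]
    refine hgy.trans (le_of_eq (pr_congr fun p _ => ?_))
    split_ifs with h
    · rfl
    · push Not at h
      exact h
  · intro p hp
    rw [Finsupp.support_filter, Finset.mem_filter] at hp
    exact hp.2

theorem low2_seq (y : ℕ → ℕ → ℝ) (hfin : ∀ k, (Function.support (y k)).Finite) (δ : ℝ)
    (H : ∀ T K : ℕ, ∃ k, K ≤ k ∧ ∃ (r : ℕ∞) (g : ℕ →₀ ℝ), IsW r g ∧ (T : ℕ∞) ≤ r ∧
      δ ≤ pr g (y k) ∧ ∀ p ∈ g.support, y k p ≠ 0) :
    ∃ (φ : ℕ → ℕ) (r : ℕ → ℕ∞) (g : ℕ → ℕ →₀ ℝ), StrictMono φ ∧ (∀ i, IsW (r i) (g i)) ∧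
      (∀ i, δ ≤ pr (g i) (y (φ i))) ∧ (∀ i, ∀ p ∈ (g i).support, y (φ i) p ≠ 0) ∧
      ∀ i j, i < j → ∀ p, y (φ i) p ≠ 0 → (p : ℕ∞) < r j := by
  have hM : ∀ k, ∃ M : ℕ, ∀ p, y k p ≠ 0 → p < M := by
    intro k
    obtain ⟨M, hM⟩ := (hfin k).bddAbove
    exact ⟨M + 1, fun p hp => Nat.lt_succ_of_le (hM hp)⟩
  choose M hM using hM
  choose k hK r g hg hr hgy hsup using H
  let st : ℕ → ℕ × ℕ := fun i => Nat.rec (0, 0)
    (fun _ s => (max s.1 (M (k s.1 s.2)), k s.1 s.2 + 1)) i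
  have hst : ∀ i, st (i + 1) = (max (st i).1 (M (k (st i).1 (st i).2)), k (st i).1 (st i).2 + 1) :=
    fun i => rfl
  have hmono : Monotone fun i => (st i).1 := by
    refine monotone_nat_of_le_succ fun i => ?_
    rw [hst]
    exact le_max_left _ _
  refine ⟨fun i => k (st i).1 (st i).2, fun i => r (st i).1 (st i).2, fun i => g (st i).1 (st i).2,
    ?_, fun i => hg _ _, fun i => hgy _ _, fun i => hsup _ _, ?_⟩
  · refine strictMono_nat_of_lt_succ fun i => ?_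
    have h1 := hK (st (i + 1)).1 (st (i + 1)).2
    have h2 : (st (i + 1)).2 = k (st i).1 (st i).2 + 1 := by rw [hst]
    omega
  · intro i j hij p hp
    have h1 : p < M (k (st i).1 (st i).2) := hM _ p hp
    have h2 : (st (i + 1)).1 ≤ (st j).1 := hmono hij
    have h3 : M (k (st i).1 (st i).2) ≤ (st (i + 1)).1 := by
      rw [hst]
      exact le_max_right _ _
    have h4 : p < (st j).1 := by omega
    refine lt_of_lt_of_le ?_ (hr (st j).1 (st j).2)
    exact_mod_cast h4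

theorem lower_select (y : ℕ → ℕ → ℝ) (hfin : ∀ k, (Function.support (y k)).Finite)
    (hy : Succ y) (hk : ∀ k p, y k p ≠ 0 → k ≤ p)
    (hlow : ∀ k, ∃ (r : ℕ∞) (f : ℕ →₀ ℝ), IsW r f ∧ 1 / 2 ≤ pr f (y k)) :
    ∃ δ : ℝ, 0 < δ ∧ ∃ φ : ℕ → ℕ, StrictMono φ ∧
      ∀ (n : ℕ) (a : Fin n → ℝ) (u : Fin n → ℕ), StrictMono u →
        ∀ T : ℝ, NB (∑ i, a i • y (φ (u i))) T → PB a (T / δ) := by
  classical
  obtain ⟨δ, hδ, H⟩ := low2_dich y hk hlow
  obtain ⟨φ, r, g, hφ, hg, hgy, hsup, hgr⟩ := low2_seq y hfin δ H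
  refine ⟨δ, hδ, φ, hφ, ?_⟩
  intro n a u hu T hT
  -- cross terms vanish
  have hcross : ∀ i j : ℕ, i ≠ j → pr (g i) (y (φ j)) = 0 := by
    intro i j hij
    refine pr_eq_zero fun p hp => ?_
    by_contra hne
    have h1 := hsup i p hp
    rcases lt_or_gt_of_ne hij with hlt | hlt
    · exact lt_irrefl p (hy _ _ (hφ hlt) p p h1 hne)
    · exact lt_irrefl p (hy _ _ (hφ hlt) p p hne h1)
  have hprg : ∀ i : Fin n, pr (g (u i)) (∑ j, a j • y (φ (u j))) =
      a i * pr (g (u i)) (y (φ (u i))) := by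
    intro i
    rw [pr_sum, Finset.sum_eq_single i]
    · rw [pr_smul]
    · intro j _ hji
      rw [pr_smul, hcross _ _ (fun h => hji (hu.injective h).symm), mul_zero]
    · intro h
      exact absurd (Finset.mem_univ i) h
  have hpos : ∀ i, 0 < pr (g i) (y (φ i)) := fun i => lt_of_lt_of_le hδ (hgy i)
  refine ⟨fun i => ?_, fun R B hB => ?_⟩
  · have h1 := hT.abs_le (hg (u i))
    rw [hprg, abs_mul, abs_of_pos (hpos _)] at h1
    rw [le_div_iff₀ hδ]
    exact (mul_le_mul_of_nonneg_left (hgy (u i)) (abs_nonneg _)).trans h1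
  · let b : ℕ → ℝ := Function.extend u a 0
    have hb : ∀ i, b (u i) = a i := fun i => hu.injective.extend_apply a 0 i
    let f : ℕ → ℕ →₀ ℝ := fun j => if 0 ≤ b j then g j else - g j
    have hfW : ∀ j, IsW (r j) (f j) := by
      intro j
      by_cases h : 0 ≤ b j
      · simp only [f, h, if_true]; exact hg j
      · simp only [f, h, if_false]; exact (hg j).neg
    have hfs : ∀ j, (f j).support = (g j).support := by
      intro j
      by_cases h : 0 ≤ b j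
      · simp only [f, h, if_true]
      · simp only [f, h, if_false]; exact Finsupp.support_neg _
    have hch : Chain (B.image u) f r := by
      refine ⟨fun j _ => hfW j, ?_, ?_⟩
      · intro i _ j _ hij p hp q hq
        rw [hfs] at hp hq
        exact hy _ _ (hφ hij) p q (hsup i p hp) (hsup j q hq)
      · intro i _ j _ hij p hp
        rw [hfs] at hp
        exact hgr i j hij p (hsup i p hp)
    have hcard : (B.image u).card ≤ L R := Finset.card_image_le.trans hB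
    have h1 := hT _ _ (hch.isW hcard)
    rw [pr_smul_left, pr_sum_left, Finset.sum_image (fun i _ j _ h => hu.injective h)] at h1
    have h2 : ∀ i ∈ B, |a i| * δ ≤ pr (f (u i)) (∑ j, a j • y (φ (u j))) := by
      intro i _
      have h3 : pr (f (u i)) (∑ j, a j • y (φ (u j))) = |a i| * pr (g (u i)) (y (φ (u i))) := by
        by_cases h : 0 ≤ b (u i)
        · have : f (u i) = g (u i) := by simp only [f, h, if_true]
          rw [this, hprg, abs_of_nonneg (by rwa [hb] at h)]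
        · have : f (u i) = - g (u i) := by simp only [f, h, if_false]
          rw [this, pr_neg_left, hprg, abs_of_neg (by rw [hb] at h; exact not_le.1 h)]
          ring
      rw [h3]
      exact mul_le_mul_of_nonneg_left (hgy _) (abs_nonneg _)
    rw [le_div_iff₀ hδ, mul_assoc, Finset.sum_mul]
    exact (mul_le_mul_of_nonneg_left (Finset.sum_le_sum h2) (w_pos R).le).trans h1

end USM
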