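import Pool.Agent.Helper51.USM.Basic

/-! # The model norm of constant vectors -/

namespace USM

open Filter Topology

theorem ones_two_le_L (s : ℕ) : 2 ≤ L s := by
  unfold L
  calc 2 = 2 ^ 1 := by norm_num
    _ ≤ 2 ^ (2 ^ s) := Nat.pow_le_pow_right (by norm_num) (Nat.one_le_two_pow)

theorem ones_w_succ (s : ℕ) : w (s + 1) ≤ w s := by
  unfold w
  have h1 := L_pos' s
  have h2 := L_pos' (s + 1)
  rw [div_le_div_iff₀ h2 h1, L_succ]
  have h3 : (2 : ℝ) ≤ (L s : ℝ) := by exact_mod_cast ones_two_le_L s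
  have h4 : (0 : ℝ) ≤ (s : ℝ) := Nat.cast_nonneg s
  push_cast
  nlinarith [mul_le_mul_of_nonneg_left h3 (by positivity : (0 : ℝ) ≤ ((s : ℝ) + 1) * (L s : ℝ))]

theorem ones_w_anti : Antitone w := antitone_nat_of_succ_le ones_w_succ

theorem PB_ones (r : ℕ) : PB (fun _ : Fin (L r) => (1 : ℝ)) ((r : ℝ) + 1) := by
  refine ⟨fun i => ?_, fun r' B hB => ?_⟩
  · simp
  · simp only [abs_one, Finset.sum_const, nsmul_eq_mul, mul_one]
    have hB' : B.card ≤ L r := by
      have := Finset.card_le_univ B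
      simpa using this
    rcases le_total r' r with h | h
    · calc w r' * (B.card : ℝ) ≤ w r' * (L r' : ℝ) :=
            mul_le_mul_of_nonneg_left (by exact_mod_cast hB) (w_pos r').le
        _ = (r' : ℝ) + 1 := w_mul_L r'
        _ ≤ (r : ℝ) + 1 := by
            have : (r' : ℝ) ≤ (r : ℝ) := by exact_mod_cast h
            linarith
    · calc w r' * (B.card : ℝ) ≤ w r * (L r : ℝ) :=
            mul_le_mul (ones_w_anti h) (by exact_mod_cast hB') (Nat.cast_nonneg _) (w_pos r).le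
        _ = (r : ℝ) + 1 := w_mul_L r

theorem le_of_PB_ones (r : ℕ) {E : ℝ} (h : PB (fun _ : Fin (L r) => (1 : ℝ)) E) :
    (r : ℝ) + 1 ≤ E := by
  have := h.2 r Finset.univ (by simp)
  simp only [abs_one, Finset.sum_const, nsmul_eq_mul, mul_one, Finset.card_univ,
    Fintype.card_fin] at this
  rwa [w_mul_L] at this

/-- The sizes beat the values of the model norm, even after taking a root. -/
theorem exists_root_gt (p : ℝ) (hp : 0 < p) (C : ℝ) :
    ∃ r : ℕ, C * ((r : ℝ) + 1) < ((L r : ℕ) : ℝ) ^ (1 / p) := by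
  have hx : (1 : ℝ) < (2 : ℝ) ^ (1 / p) := Real.one_lt_rpow (by norm_num) (by positivity)
  have ht := tendsto_pow_const_div_const_pow_of_one_lt 1 hx
  have hC : (0 : ℝ) < 1 / (|C| + 1) := by positivity
  obtain ⟨N, hN⟩ := (ht.eventually (gt_mem_nhds hC)).exists_forall_of_atTop
  refine ⟨N, ?_⟩
  have h1 : N + 1 ≤ 2 ^ N := Nat.lt_two_pow_self
  have h2 := hN (2 ^ N) (by omega)
  have hpos : (0 : ℝ) < ((2 : ℝ) ^ (1 / p)) ^ (2 ^ N) := by positivity
  rw [div_lt_iff₀ hpos, pow_one, one_div, inv_mul_eq_div, lt_div_iff₀ (by positivity)] at h2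
  have h3 : ((L N : ℕ) : ℝ) ^ (1 / p) = ((2 : ℝ) ^ (1 / p)) ^ (2 ^ N) := by
    unfold L
    push_cast
    rw [← Real.rpow_natCast, ← Real.rpow_natCast, ← Real.rpow_mul (by norm_num),
      ← Real.rpow_mul (by norm_num), mul_comm]
  rw [h3]
  have h4 : ((N : ℝ) + 1) ≤ ((2 ^ N : ℕ) : ℝ) := by exact_mod_cast h1
  calc C * ((N : ℝ) + 1) ≤ (|C| + 1) * ((2 ^ N : ℕ) : ℝ) := by
        refine mul_le_mul ?_ h4 (by positivity) (by positivity)
        have := le_abs_self C
        linarith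
    _ = ((2 ^ N : ℕ) : ℝ) * (|C| + 1) := mul_comm _ _
    _ < _ := h2

end USM
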