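import Pool.Agent.Helper51.USM.XSP
import Pool.Agent.Helper51.USM.LOW2
import Pool.Agent.Helper51.USM.ONES

/-! # The basis is boundedly complete -/

namespace USM

open Filter Topology

theorem bc_blk_sub (z : ℕ → ℝ) {m n : ℕ} (h : m ≤ n) : blk z 0 n - blk z 0 m = blk z m n := by
  unfold blk
  rw [← Finset.sum_Ico_consecutive _ (Nat.zero_le m) h]
  abel

theorem bc_exists_block (z : ℕ → ℝ)
    (hz : ¬ ∃ x : XS, Tendsto (fun n => blk z 0 n) atTop (𝓝 x)) :
    ∃ ε : ℝ, 0 < ε ∧ ∀ N : ℕ, ∃ m n : ℕ, N ≤ m ∧ m < n ∧ ε ≤ ‖blk z m n‖ := by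
  by_contra hcon
  push Not at hcon
  apply hz
  apply cauchySeq_tendsto_of_complete
  rw [Metric.cauchySeq_iff]
  intro ε hε
  obtain ⟨N, hN⟩ := hcon ε hε
  refine ⟨N, fun m hm n hn => ?_⟩
  rcases lt_trichotomy m n with h | h | h
  · rw [dist_comm, dist_eq_norm, bc_blk_sub z h.le]
    exact hN m n hm h
  · rw [h, dist_self]
    exact hε
  · rw [dist_eq_norm, bc_blk_sub z h.le]
    exact hN n m hn h

theorem bc_sum_eq (z : ℕ → ℝ) (c : ℝ) (n M : ℕ) (P Q : Fin n → ℕ)
    (hPQ : ∀ i j : Fin n, i < j → Q i ≤ P j) (hM : ∀ i, Q i ≤ M) :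
    (∑ i : Fin n, c • co (blk z (P i) (Q i))) =
      c • (fun p => if (∃ i : Fin n, P i ≤ p ∧ p < Q i) then co (blk z 0 M) p else 0) := by
  funext p
  rw [Finset.sum_apply]
  simp only [Pi.smul_apply, smul_eq_mul, co_blk]
  by_cases hp : ∃ i : Fin n, P i ≤ p ∧ p < Q i
  · rw [if_pos hp]
    obtain ⟨i, hi1, hi2⟩ := hp
    have hpM : 0 ≤ p ∧ p < M := ⟨Nat.zero_le _, lt_of_lt_of_le hi2 (hM i)⟩
    rw [if_pos hpM, Finset.sum_eq_single i]
    · rw [if_pos ⟨hi1, hi2⟩]
    · intro j _ hj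
      rw [if_neg, mul_zero]
      rintro ⟨hj1, hj2⟩
      rcases lt_or_gt_of_ne hj with h | h
      · have := hPQ j i h
        omega
      · have := hPQ i j h
        omega
    · intro h
      exact absurd (Finset.mem_univ i) h
  · rw [if_neg hp, mul_zero]
    refine Finset.sum_eq_zero fun i _ => ?_
    rw [if_neg, mul_zero]
    intro h
    exact hp ⟨i, h⟩

theorem bdd_complete (z : ℕ → ℝ) (C : ℝ) (h : ∀ n, ‖blk z 0 n‖ ≤ C) :
    ∃ x : XS, Tendsto (fun n => blk z 0 n) atTop (𝓝 x) := by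
  by_contra hz
  obtain ⟨ε, hε, hb⟩ := bc_exists_block z hz
  have hC : 0 ≤ C := (norm_nonneg _).trans (h 0)
  choose P Q hP hPQ hn using hb
  let t : ℕ → ℕ := fun k => Nat.rec 0 (fun _ s => Q s) k
  have ht1 : ∀ k, t (k + 1) = Q (t k) := fun k => rfl
  have htp : ∀ k, t k ≤ P (t k) := fun k => hP (t k)
  have htq : ∀ k, P (t k) < t (k + 1) := fun k => by rw [ht1]; exact hPQ (t k)
  have htm : StrictMono t := strictMono_nat_of_lt_succ fun k => (htp k).trans_lt (htq k)
  have htk : ∀ k, k ≤ t k := fun k => htm.id_le k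
  let y : ℕ → ℕ → ℝ := fun k => ε⁻¹ • co (blk z (P (t k)) (Q (t k)))
  have hyne : ∀ k p, y k p ≠ 0 → P (t k) ≤ p ∧ p < t (k + 1) := by
    intro k p hp
    by_contra hcon
    apply hp
    simp only [y, Pi.smul_apply, co_blk, smul_eq_mul]
    rw [if_neg, mul_zero]
    exact hcon
  have hfin : ∀ k, (Function.support (y k)).Finite := by
    intro k
    refine (Set.finite_lt_nat (t (k + 1))).subset ?_
    intro p hp
    exact (hyne k p hp).2
  have hsucc : Succ y := by
    intro i j hij p q hp hq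
    have h1 := (hyne i p hp).2
    have h2 := (hyne j q hq).1
    have h3 : t (i + 1) ≤ t j := htm.monotone hij
    have h4 := htp j
    omega
  have hk : ∀ k p, y k p ≠ 0 → k ≤ p := by
    intro k p hp
    exact (htk k).trans ((htp k).trans (hyne k p hp).1)
  have hlow : ∀ k, ∃ (r : ℕ∞) (f : ℕ →₀ ℝ), IsW r f ∧ 1 / 2 ≤ pr f (y k) := by
    intro k
    have h1 : ¬ NB (co (blk z (P (t k)) (Q (t k)))) (ε / 2) := by
      intro hNB
      have h2 := (norm_le_iff _ (by positivity)).2 hNB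
      have h3 := hn (t k)
      linarith
    unfold NB at h1
    push Not at h1
    obtain ⟨r, f, hf, hlt⟩ := h1
    refine ⟨r, f, hf, ?_⟩
    simp only [y, pr_smul]
    rw [inv_mul_eq_div, le_div_iff₀ hε]
    linarith
  obtain ⟨δ, hδ, φ, hφ, hmain⟩ := lower_select y hfin hsucc hk hlow
  have key : ∀ r : ℕ, (r : ℝ) + 1 ≤ (|ε⁻¹| * C) / δ := by
    intro r
    apply le_of_PB_ones r
    refine hmain (L r) (fun _ => 1) (fun i => (i : ℕ)) (fun i j hij => hij) (|ε⁻¹| * C) ?_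
    have e1 : (∑ i : Fin (L r), (1 : ℝ) • y (φ (i : ℕ))) =
        ε⁻¹ • (fun p => if (∃ i : Fin (L r), P (t (φ i)) ≤ p ∧ p < Q (t (φ i)))
          then co (blk z 0 (t (φ (L r)))) p else 0) := by
      have := bc_sum_eq z ε⁻¹ (L r) (t (φ (L r))) (fun i => P (t (φ i))) (fun i => Q (t (φ i)))
        (fun i j hij => by
          have h3 : t (φ i + 1) ≤ t (φ j) := htm.monotone (hφ hij)
          exact h3.trans (htp _))
        (fun i => by
          have h3 : t (φ i + 1) ≤ t (φ (L r)) := htm.monotone (hφ i.2)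
          exact h3)
      rw [← this]
      refine Finset.sum_congr rfl fun i _ => ?_
      rw [one_smul]
    rw [e1]
    apply NB.smul
    exact NB.restrict ((norm_le_iff _ hC).1 (h _)) _
  obtain ⟨N, hN⟩ := exists_nat_gt ((|ε⁻¹| * C) / δ)
  have := key N
  linarith

end USM
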