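import Pool.Agent.Helper51.USM.Defs

/-!
# Basic facts on the norming set and the pairing
-/

namespace USM

open Finset

theorem L_pos (r : ℕ) : 0 < L r := by unfold L; positivity

theorem L_pos' (r : ℕ) : (0 : ℝ) < (L r : ℝ) := by exact_mod_cast L_pos r

theorem L_mono {r s : ℕ} (h : r ≤ s) : L r ≤ L s := by
  unfold L
  exact Nat.pow_le_pow_right (by norm_num) (Nat.pow_le_pow_right (by norm_num) h)

theorem L_succ (r : ℕ) : L (r + 1) = L r ^ 2 := by
  unfold L
  rw [← pow_mul, pow_succ 2 r]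

theorem w_pos (r : ℕ) : 0 < w r := by
  unfold w
  have := L_pos' r
  positivity

theorem succ_lt_L (r : ℕ) : r + 1 < L r + 1 := by
  unfold L
  have h1 : r + 1 ≤ 2 ^ r := Nat.lt_two_pow_self
  have h2 : 2 ^ r < 2 ^ (2 ^ r) := Nat.lt_two_pow_self
  omega

theorem w_le_half (r : ℕ) : w r ≤ 1 / 2 := by
  have h : 2 * (r + 1) ≤ L r := by
    unfold L
    have h1 : r + 1 ≤ 2 ^ r := Nat.lt_two_pow_self
    have h2 : 2 * 2 ^ r ≤ 2 ^ (2 ^ r) := by
      have h3 : r + 1 ≤ 2 ^ r := h1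
      calc 2 * 2 ^ r = 2 ^ (r + 1) := by ring
        _ ≤ 2 ^ (2 ^ r) := Nat.pow_le_pow_right (by norm_num) h3
    omega
  have h' : (2 : ℝ) * ((r : ℝ) + 1) ≤ (L r : ℝ) := by exact_mod_cast h
  unfold w
  rw [div_le_iff₀ (L_pos' r)]
  linarith

theorem w_le_one (r : ℕ) : w r ≤ 1 := (w_le_half r).trans (by norm_num)

theorem w_mul_L (r : ℕ) : w r * (L r : ℝ) = (r : ℝ) + 1 := by
  unfold w
  have := (L_pos' r).ne'
  field_simp

/-! ### The pairing -/

theorem pr_add_left (f g : ℕ →₀ ℝ) (x : ℕ → ℝ) : pr (f + g) x = pr f x + pr g x := by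
  unfold pr
  rw [Finsupp.sum_add_index']
  · intro i; simp
  · intro i a b; ring

theorem pr_smul_left (c : ℝ) (f : ℕ →₀ ℝ) (x : ℕ → ℝ) : pr (c • f) x = c * pr f x := by
  unfold pr
  rw [Finsupp.sum_smul_index']
  · rw [Finsupp.mul_sum]
    refine Finsupp.sum_congr fun i _ => ?_
    rw [smul_eq_mul]; ring
  · intro i; simp

@[simp] theorem pr_zero_left (x : ℕ → ℝ) : pr 0 x = 0 := by
  unfold pr; simp

theorem pr_neg_left (f : ℕ →₀ ℝ) (x : ℕ → ℝ) : pr (-f) x = - pr f x := by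
  have := pr_smul_left (-1) f x
  simpa using this

theorem pr_sum_left {ι : Type*} (s : Finset ι) (f : ι → ℕ →₀ ℝ) (x : ℕ → ℝ) :
    pr (∑ j ∈ s, f j) x = ∑ j ∈ s, pr (f j) x := by
  classical
  induction s using Finset.induction_on with
  | empty => simp
  | insert a s ha ih => rw [Finset.sum_insert ha, Finset.sum_insert ha, pr_add_left, ih]

theorem pr_eq_sum (f : ℕ →₀ ℝ) (x : ℕ → ℝ) : pr f x = ∑ i ∈ f.support, f i * x i := rfl

theorem pr_add (f : ℕ →₀ ℝ) (x y : ℕ → ℝ) : pr f (x + y) = pr f x + pr f y := by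
  simp only [pr_eq_sum, Pi.add_apply, mul_add, Finset.sum_add_distrib]

theorem pr_smul (c : ℝ) (f : ℕ →₀ ℝ) (x : ℕ → ℝ) : pr f (c • x) = c * pr f x := by
  simp only [pr_eq_sum, Pi.smul_apply, smul_eq_mul, Finset.mul_sum]
  exact Finset.sum_congr rfl fun i _ => by ring

@[simp] theorem pr_zero (f : ℕ →₀ ℝ) : pr f 0 = 0 := by
  simp [pr_eq_sum]

theorem pr_neg (f : ℕ →₀ ℝ) (x : ℕ → ℝ) : pr f (-x) = - pr f x := by
  have := pr_smul (-1) f x
  simpa using this

theorem pr_sum {ι : Type*} (s : Finset ι) (f : ℕ →₀ ℝ) (y : ι → ℕ → ℝ) :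
    pr f (∑ i ∈ s, y i) = ∑ i ∈ s, pr f (y i) := by
  classical
  induction s using Finset.induction_on with
  | empty => simp
  | insert a s ha ih => rw [Finset.sum_insert ha, Finset.sum_insert ha, pr_add, ih]

theorem pr_single (i : ℕ) (s : ℝ) (x : ℕ → ℝ) : pr (Finsupp.single i s) x = s * x i := by
  unfold pr
  rw [Finsupp.sum_single_index]
  simp

theorem pr_congr {f : ℕ →₀ ℝ} {x y : ℕ → ℝ} (h : ∀ p ∈ f.support, x p = y p) :
    pr f x = pr f y := by
  rw [pr_eq_sum, pr_eq_sum]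
  exact Finset.sum_congr rfl fun i hi => by rw [h i hi]

theorem pr_eq_zero {f : ℕ →₀ ℝ} {x : ℕ → ℝ} (h : ∀ p ∈ f.support, x p = 0) : pr f x = 0 := by
  rw [pr_eq_sum]
  exact Finset.sum_eq_zero fun i hi => by rw [h i hi, mul_zero]

theorem pr_filter (f : ℕ →₀ ℝ) (p : ℕ → Prop) [DecidablePred p] (x : ℕ → ℝ) :
    pr (f.filter p) x = pr f (fun i => if p i then x i else 0) := by
  rw [pr_eq_sum, pr_eq_sum, Finsupp.support_filter, Finset.sum_filter]
  refine Finset.sum_congr rfl fun i _ => ?_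
  split_ifs with h
  · rw [Finsupp.filter_apply_pos _ _ h]
  · rw [mul_zero]

/-! ### The norming set -/

theorem IsW.zero : IsW ⊤ 0 := by
  have := IsW.basis 0 0 (by simp)
  simpa using this

theorem IsW.neg {r : ℕ∞} {f : ℕ →₀ ℝ} (h : IsW r f) : IsW r (-f) := by
  induction h with
  | basis i s hs =>
    rw [← Finsupp.single_neg]
    exact IsW.basis i (-s) (by rwa [abs_neg])
  | comp r A hA f ind hf hs ih =>
    have e : -(w r • ∑ j ∈ A, f j) = w r • ∑ j ∈ A, (fun j => -f j) j := by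
      rw [← smul_neg, Finset.sum_neg_distrib]
    rw [e]
    refine IsW.comp r A hA _ ind (fun j hj => ih j hj) ?_
    intro i hi j hj hij p hp
    rw [Finsupp.support_neg] at hp
    refine ⟨fun q hq => ?_, (hs i hi j hj hij p hp).2⟩
    rw [Finsupp.support_neg] at hq
    exact (hs i hi j hj hij p hp).1 q hq

theorem IsW.filter {r : ℕ∞} {f : ℕ →₀ ℝ} (h : IsW r f) (p : ℕ → Prop) [DecidablePred p] :
    IsW r (f.filter p) := by
  induction h with
  | basis i s hs =>
    by_cases hi : p i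
    · rw [Finsupp.filter_single_of_pos _ hi]
      exact IsW.basis i s hs
    · rw [Finsupp.filter_single_of_neg _ hi]
      exact IsW.zero
  | comp r A hA f ind hf hs ih =>
    have e : (w r • ∑ j ∈ A, f j).filter p = w r • ∑ j ∈ A, (fun j => (f j).filter p) j := by
      rw [Finsupp.filter_smul]
      congr 1
      exact map_sum (Finsupp.filterAddHom p) f A
    rw [e]
    refine IsW.comp r A hA _ ind (fun j hj => ih j hj) ?_
    intro i hi j hj hij q hq
    rw [Finsupp.support_filter, Finset.mem_filter] at hq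
    refine ⟨fun q' hq' => ?_, (hs i hi j hj hij q hq.1).2⟩
    rw [Finsupp.support_filter, Finset.mem_filter] at hq'
    exact (hs i hi j hj hij q hq.1).1 q' hq'.1

theorem Chain.isW {r : ℕ} {A : Finset ℕ} {f : ℕ → ℕ →₀ ℝ} {ind : ℕ → ℕ∞} (h : Chain A f ind)
    (hA : A.card ≤ L r) : IsW r (w r • ∑ j ∈ A, f j) :=
  IsW.comp r A hA f ind h.mem fun i hi j hj hij p hp =>
    ⟨h.lt i hi j hj hij p hp, h.grow i hi j hj hij p hp⟩

theorem Chain.mono {A B : Finset ℕ} {f : ℕ → ℕ →₀ ℝ} {ind : ℕ → ℕ∞} (h : Chain A f ind)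
    (hB : B ⊆ A) : Chain B f ind :=
  ⟨fun j hj => h.mem j (hB hj), fun i hi j hj => h.lt i (hB hi) j (hB hj),
    fun i hi j hj => h.grow i (hB hi) j (hB hj)⟩

/-- Case analysis on members of the norming set. -/
theorem IsW.cases' {r : ℕ∞} {g : ℕ →₀ ℝ} (h : IsW r g) :
    (r = ⊤ ∧ ∃ i s, |s| ≤ 1 ∧ g = Finsupp.single i s) ∨
      ∃ (s : ℕ) (A : Finset ℕ) (f : ℕ → ℕ →₀ ℝ) (ind : ℕ → ℕ∞), r = s ∧ A.card ≤ L s ∧
        Chain A f ind ∧ g = w s • ∑ j ∈ A, f j := by
  cases h with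
  | basis i s hs => exact Or.inl ⟨rfl, i, s, hs, rfl⟩
  | comp r A hA f ind hf hs =>
    exact Or.inr ⟨r, A, f, ind, rfl, hA, ⟨hf, fun i hi j hj hij p hp => (hs i hi j hj hij p hp).1,
      fun i hi j hj hij p hp => (hs i hi j hj hij p hp).2⟩, rfl⟩

/-- Induction on members of the norming set, with chains. -/
theorem IsW.induct {P : (ℕ →₀ ℝ) → Prop} (h0 : ∀ i s, |s| ≤ 1 → P (Finsupp.single i s))
    (h1 : ∀ (s : ℕ) (A : Finset ℕ) (f : ℕ → ℕ →₀ ℝ) (ind : ℕ → ℕ∞), A.card ≤ L s →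
      Chain A f ind → (∀ j ∈ A, P (f j)) → P (w s • ∑ j ∈ A, f j))
    {r : ℕ∞} {g : ℕ →₀ ℝ} (h : IsW r g) : P g := by
  induction h with
  | basis i s hs => exact h0 i s hs
  | comp r A hA f ind hf hs ih =>
    exact h1 r A f ind hA ⟨hf, fun i hi j hj hij p hp => (hs i hi j hj hij p hp).1,
      fun i hi j hj hij p hp => (hs i hi j hj hij p hp).2⟩ ih

theorem IsW.abs_le {r : ℕ∞} {g : ℕ →₀ ℝ} (h : IsW r g) (i : ℕ) : |g i| ≤ 1 := by
  revert h
  refine fun h => IsW.induct (P := fun g => ∀ i, |g i| ≤ 1) ?_ ?_ h i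
  · intro k s hs i
    rw [Finsupp.single_apply]
    split_ifs
    · exact hs
    · simp
  · intro s A f ind _ hc ih i
    rw [Finsupp.smul_apply, Finsupp.finsetSum_apply, smul_eq_mul, abs_mul, abs_of_pos (w_pos s)]
    have h2 : |∑ j ∈ A, f j i| ≤ 1 := by
      by_cases hz : ∃ j ∈ A, f j i ≠ 0
      · obtain ⟨j, hj, hji⟩ := hz
        rw [Finset.sum_eq_single j]
        · exact ih j hj i
        · intro k hk hkj
          by_contra hne
          rcases lt_or_gt_of_ne hkj with hlt | hlt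
          · exact lt_irrefl i (hc.lt k hk j hj hlt i (Finsupp.mem_support_iff.2 hne) i
              (Finsupp.mem_support_iff.2 hji))
          · exact lt_irrefl i (hc.lt j hj k hk hlt i (Finsupp.mem_support_iff.2 hji) i
              (Finsupp.mem_support_iff.2 hne))
        · intro hj'
          exact absurd hj hj'
      · push Not at hz
        rw [Finset.sum_eq_zero hz]
        simp
    calc w s * |∑ j ∈ A, f j i| ≤ 1 * 1 :=
          mul_le_mul (w_le_one s) h2 (abs_nonneg _) zero_le_one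
      _ = 1 := one_mul 1

/-! ### The norm bound -/

theorem NB.abs_le {x : ℕ → ℝ} {C : ℝ} (h : NB x C) {r : ℕ∞} {f : ℕ →₀ ℝ} (hf : IsW r f) :
    |pr f x| ≤ C := by
  rw [_root_.abs_le]
  constructor
  · have := h r (-f) hf.neg
    rw [pr_neg_left] at this
    linarith
  · exact h r f hf

theorem NB.nonneg {x : ℕ → ℝ} {C : ℝ} (h : NB x C) : 0 ≤ C :=
  (abs_nonneg _).trans (h.abs_le IsW.zero)

theorem NB.mono {x : ℕ → ℝ} {C D : ℝ} (h : NB x C) (hCD : C ≤ D) : NB x D :=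
  fun r f hf => (h r f hf).trans hCD

theorem NB.neg {x : ℕ → ℝ} {C : ℝ} (h : NB x C) : NB (-x) C := by
  intro r f hf
  rw [pr_neg, ← pr_neg_left]
  exact h r _ hf.neg

theorem NB.smul {x : ℕ → ℝ} {C : ℝ} (h : NB x C) (c : ℝ) : NB (c • x) (|c| * C) := by
  intro r f hf
  rw [pr_smul]
  calc c * pr f x ≤ |c * pr f x| := le_abs_self _
    _ = |c| * |pr f x| := abs_mul _ _
    _ ≤ |c| * C := mul_le_mul_of_nonneg_left (h.abs_le hf) (abs_nonneg _)

theorem NB.add {x y : ℕ → ℝ} {C D : ℝ} (h : NB x C) (h' : NB y D) : NB (x + y) (C + D) := by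
  intro r f hf
  rw [pr_add]
  exact add_le_add (h r f hf) (h' r f hf)

theorem NB.sum {ι : Type*} (s : Finset ι) {y : ι → ℕ → ℝ} {C : ι → ℝ}
    (h : ∀ i ∈ s, NB (y i) (C i)) : NB (∑ i ∈ s, y i) (∑ i ∈ s, C i) := by
  intro r f hf
  rw [pr_sum]
  exact Finset.sum_le_sum fun i hi => h i hi r f hf

/-- Restriction to a set of coordinates does not increase the norm. -/
theorem NB.restrict {x : ℕ → ℝ} {C : ℝ} (h : NB x C) (p : ℕ → Prop) [DecidablePred p] :
    NB (fun i => if p i then x i else 0) C := by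
  intro r f hf
  rw [← pr_filter]
  exact h r _ (hf.filter p)

theorem NB.coord {x : ℕ → ℝ} {C : ℝ} (h : NB x C) (i : ℕ) : |x i| ≤ C := by
  have := h.abs_le (IsW.basis i 1 (by simp))
  rwa [pr_single, one_mul] at this

end USM
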