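import Mathlib

/-!
# A reflexive space with a unique spreading model (MP_4fad3e_an): definitions

The norming set `IsW` of the space, its pairing with vectors and the norm bound predicate.
-/

namespace USM

/-- The sizes `2^(2^r)`. -/
def L (r : ℕ) : ℕ := 2 ^ (2 ^ r)

/-- The weights `(r + 1) / 2^(2^r)`. -/
noncomputable def w (r : ℕ) : ℝ := ((r : ℝ) + 1) / (L r : ℝ)

/-- `IsW r f`: the finitely supported functional `f` belongs to the norming set, with index `r`.
Coordinate functionals have index `⊤`; a compound functional with index `r` is `w r` times the sum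
of at most `L r` successive functionals `f j`, where the index of `f j` exceeds all elements of the
supports of the previous ones. -/
inductive IsW : ℕ∞ → (ℕ →₀ ℝ) → Prop
  | basis (i : ℕ) (s : ℝ) (hs : |s| ≤ 1) : IsW ⊤ (Finsupp.single i s)
  | comp (r : ℕ) (A : Finset ℕ) (hA : A.card ≤ L r) (f : ℕ → ℕ →₀ ℝ) (ind : ℕ → ℕ∞)
      (hf : ∀ j ∈ A, IsW (ind j) (f j))
      (hs : ∀ i ∈ A, ∀ j ∈ A, i < j → ∀ p ∈ (f i).support,
        (∀ q ∈ (f j).support, p < q) ∧ (p : ℕ∞) < ind j) :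
      IsW (r : ℕ∞) (w r • ∑ j ∈ A, f j)

/-- A finite family of functionals of the norming set, successive and with growing indices. -/
structure Chain (A : Finset ℕ) (f : ℕ → ℕ →₀ ℝ) (ind : ℕ → ℕ∞) : Prop where
  mem : ∀ j ∈ A, IsW (ind j) (f j)
  lt : ∀ i ∈ A, ∀ j ∈ A, i < j → ∀ p ∈ (f i).support, ∀ q ∈ (f j).support, p < q
  grow : ∀ i ∈ A, ∀ j ∈ A, i < j → ∀ p ∈ (f i).support, (p : ℕ∞) < ind j

/-- The pairing of a functional `f` with a vector `x`. -/
noncomputable def pr (f : ℕ →₀ ℝ) (x : ℕ → ℝ) : ℝ := f.sum fun i c => c * x i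

/-- The norm of the vector `x` is at most `C`. -/
def NB (x : ℕ → ℝ) (C : ℝ) : Prop := ∀ (r : ℕ∞) (f : ℕ →₀ ℝ), IsW r f → pr f x ≤ C

/-- The vectors `y 0, y 1, …` have successive supports. -/
def Succ {ι : Type} [LT ι] (y : ι → ℕ → ℝ) : Prop :=
  ∀ i j : ι, i < j → ∀ p q : ℕ, y i p ≠ 0 → y j q ≠ 0 → p < q

/-- The model norm of `a` is at most `E`. -/
def PB {n : ℕ} (a : Fin n → ℝ) (E : ℝ) : Prop :=
  (∀ i, |a i| ≤ E) ∧ ∀ (r : ℕ) (B : Finset (Fin n)), B.card ≤ L r → w r * ∑ i ∈ B, |a i| ≤ E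

end USM
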