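import Pool.Agent.Helper51.USM.XSP

/-! # Gliding hump -/

namespace USM

open Filter Topology

theorem hump_step (x : ℕ → XS)
    (hw : ∀ i, Tendsto (fun n => co (x n) i) atTop (𝓝 0)) (m p : ℕ) (ε : ℝ) (hε : 0 < ε) :
    ∃ q m' : ℕ, p < q ∧ m < m' ∧ ‖x q - blk (co (x q)) m m'‖ ≤ ε := by
  have h1 : Tendsto (fun n => blk (co (x n)) 0 m) atTop (𝓝 0) := by
    have h2 : Tendsto (fun n => ∑ i ∈ Finset.Ico 0 m, co (x n) i • e i) atTop
        (𝓝 (∑ i ∈ Finset.Ico 0 m, (0 : ℝ) • e i)) :=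
      tendsto_finsetSum _ fun i _ => (hw i).smul_const _
    simpa [blk] using h2
  have h3 : ∀ᶠ n in atTop, ‖blk (co (x n)) 0 m‖ < ε / 2 := by
    have := (h1.norm).eventually (gt_mem_nhds (show ‖(0 : XS)‖ < ε / 2 by simpa using half_pos hε))
    exact this
  obtain ⟨q, hq1, hq2⟩ := (h3.and (eventually_gt_atTop p)).exists
  have h4 : Tendsto (fun n => ‖x q - blk (co (x q)) 0 n‖) atTop (𝓝 0) := by
    have := ((tendsto_const_nhds (x := x q)).sub (tendsto_blk (x q))).norm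
    simpa using this
  obtain ⟨m', hm1, hm2⟩ := ((h4.eventually (gt_mem_nhds (half_pos hε))).and
    (eventually_gt_atTop m)).exists
  refine ⟨q, m', hq2, hm2, ?_⟩
  have h5 : blk (co (x q)) 0 m' = blk (co (x q)) 0 m + blk (co (x q)) m m' := by
    unfold blk
    exact (Finset.sum_Ico_consecutive _ (Nat.zero_le m) hm2.le).symm
  have h6 : x q - blk (co (x q)) m m' = (x q - blk (co (x q)) 0 m') + blk (co (x q)) 0 m := by
    rw [h5]; abel
  rw [h6]
  calc ‖(x q - blk (co (x q)) 0 m') + blk (co (x q)) 0 m‖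
      ≤ ‖x q - blk (co (x q)) 0 m'‖ + ‖blk (co (x q)) 0 m‖ := norm_add_le _ _
    _ ≤ ε / 2 + ε / 2 := add_le_add hm1.le hq1.le
    _ = ε := by ring

/-- Passing from a weakly null normalized sequence to successive blocks of its terms. -/
theorem hump (x : ℕ → XS) (hx : ∀ n, ‖x n‖ = 1)
    (hw : ∀ i, Tendsto (fun n => co (x n) i) atTop (𝓝 0)) :
    ∃ (ψ : ℕ → ℕ) (m : ℕ → ℕ), StrictMono ψ ∧ StrictMono m ∧
      ∀ k, ‖x (ψ k) - blk (co (x (ψ k))) (m k) (m (k + 1))‖ ≤ 1 / 4 * (1 / 2) ^ k := by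
  have H : ∀ k m p : ℕ, ∃ q m' : ℕ, p < q ∧ m < m' ∧
      ‖x q - blk (co (x q)) m m'‖ ≤ 1 / 4 * (1 / 2) ^ k := fun k m p =>
    hump_step x hw m p _ (by positivity)
  choose q m' hq hm hqm using H
  let st : ℕ → ℕ × ℕ := fun i => Nat.rec (0, 0) (fun k s => (q k s.2 s.1, m' k s.2 s.1)) i
  have hst : ∀ k, st (k + 1) = (q k (st k).2 (st k).1, m' k (st k).2 (st k).1) := fun k => rfl
  refine ⟨fun k => (st (k + 1)).1, fun k => (st k).2, ?_, ?_, ?_⟩
  · refine strictMono_nat_of_lt_succ fun k => ?_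
    show (st (k + 1)).1 < (st (k + 1 + 1)).1
    rw [hst (k + 1)]
    exact hq _ _ _
  · refine strictMono_nat_of_lt_succ fun k => ?_
    show (st k).2 < (st (k + 1)).2
    rw [hst k]
    exact hm _ _ _
  · intro k
    show ‖x (st (k + 1)).1 - blk (co (x (st (k + 1)).1)) (st k).2 (st (k + 1)).2‖ ≤ _
    rw [hst k]
    exact hqm _ _ _

/-- Block version of a spreading model. -/
theorem hump_model (x : ℕ → XS) (N : ∀ k : ℕ, (Fin k → ℝ) → ℝ) (hx : ∀ n, ‖x n‖ = 1)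
    (hw : ∀ f : XS →L[ℝ] ℝ, Tendsto (fun n => f (x n)) atTop (𝓝 0))
    (hN : ∀ (k : ℕ) (a : Fin k → ℝ) (ε : ℝ), 0 < ε → ∃ m : ℕ, ∀ n : Fin k → ℕ,
      StrictMono n → (∀ i, m ≤ n i) → |‖∑ i, a i • x (n i)‖ - N k a| < ε) :
    ∃ y : ℕ → XS, (∀ k, (Function.support (co (y k))).Finite) ∧ Succ (fun k => co (y k)) ∧
      (∀ k p, co (y k) p ≠ 0 → k ≤ p) ∧ (∀ k, ‖y k‖ ≤ 1) ∧
      (∀ k, ∃ (r : ℕ∞) (f : ℕ →₀ ℝ), IsW r f ∧ 1 / 2 ≤ pr f (co (y k))) ∧
      ∀ (k : ℕ) (a : Fin k → ℝ) (ε : ℝ), 0 < ε → ∃ m : ℕ, ∀ n : Fin k → ℕ,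
        StrictMono n → (∀ i, m ≤ n i) → |‖∑ i, a i • y (n i)‖ - N k a| < ε := by
  obtain ⟨ψ, m, hψ, hm, hxy⟩ := hump x hx (fun i => hw (coL i))
  have hsup : ∀ k p, co (blk (co (x (ψ k))) (m k) (m (k + 1))) p ≠ 0 →
      m k ≤ p ∧ p < m (k + 1) := by
    intro k p hp
    rw [co_blk] at hp
    by_contra hne
    exact hp (if_neg hne)
  refine ⟨fun k => blk (co (x (ψ k))) (m k) (m (k + 1)), ?_, ?_, ?_, ?_, ?_, ?_⟩
  · intro k
    refine (Set.finite_Iio (m (k + 1))).subset fun p hp => ?_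
    exact (hsup k p hp).2
  · intro i j hij p q hp hq
    have h1 := (hsup i p hp).2
    have h2 := (hsup j q hq).1
    have h3 : m (i + 1) ≤ m j := hm.monotone hij
    omega
  · intro k p hp
    exact (hm.le_apply).trans (hsup k p hp).1
  · intro k
    exact (norm_blk_le _ _ _).trans (hx _).le
  · intro k
    by_contra hne
    push Not at hne
    have h1 : NB (co (blk (co (x (ψ k))) (m k) (m (k + 1)))) (1 / 2) :=
      fun r f hf => (hne r f hf).le
    have h2 := (norm_le_iff _ (by norm_num)).2 h1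
    have h3 := hxy k
    have h4 : (1 / 4 : ℝ) * (1 / 2) ^ k ≤ 1 / 4 * 1 :=
      mul_le_mul_of_nonneg_left (pow_le_one₀ (by norm_num) (by norm_num)) (by norm_num)
    have h5 : ‖x (ψ k)‖ ≤ ‖x (ψ k) - blk (co (x (ψ k))) (m k) (m (k + 1))‖ +
        ‖blk (co (x (ψ k))) (m k) (m (k + 1))‖ := by
      have := norm_add_le (x (ψ k) - blk (co (x (ψ k))) (m k) (m (k + 1)))
        (blk (co (x (ψ k))) (m k) (m (k + 1)))
      rwa [sub_add_cancel] at this
    rw [hx] at h5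
    linarith
  · intro k a ε hε
    obtain ⟨m0, hm0⟩ := hN k a (ε / 2) (half_pos hε)
    have h1 : Tendsto (fun n : ℕ => (∑ i, |a i|) * (1 / 4 * (1 / 2 : ℝ) ^ n)) atTop (𝓝 0) := by
      have := (tendsto_pow_atTop_nhds_zero_of_lt_one (r := (1 / 2 : ℝ)) (by norm_num)
        (by norm_num)).const_mul ((∑ i, |a i|) * (1 / 4))
      simpa [mul_assoc] using this
    obtain ⟨m1, hm1, hm2⟩ := ((h1.eventually (gt_mem_nhds (half_pos hε))).and
      (eventually_ge_atTop m0)).exists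
    refine ⟨m1, fun n hn hnm => ?_⟩
    have h2 := hm0 (fun i => ψ (n i)) (hψ.comp hn) fun i =>
      hm2.trans ((hnm i).trans hψ.le_apply)
    have h3 : ‖(∑ i, a i • x (ψ (n i))) -
        ∑ i, a i • blk (co (x (ψ (n i)))) (m (n i)) (m (n i + 1))‖ < ε / 2 := by
      rw [← Finset.sum_sub_distrib]
      refine lt_of_le_of_lt ((norm_sum_le _ _).trans ?_) hm1
      rw [Finset.sum_mul]
      refine Finset.sum_le_sum fun i _ => ?_
      rw [← smul_sub, norm_smul, Real.norm_eq_abs]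
      refine mul_le_mul_of_nonneg_left ((hxy (n i)).trans ?_) (abs_nonneg _)
      refine mul_le_mul_of_nonneg_left ?_ (by norm_num)
      exact pow_le_pow_of_le_one (by norm_num) (by norm_num) (hnm i)
    have h4 := abs_norm_sub_norm_le (∑ i, a i • x (ψ (n i)))
        (∑ i, a i • blk (co (x (ψ (n i)))) (m (n i)) (m (n i + 1)))
    have h5 : |‖∑ i, a i • x (ψ (n i))‖ - N k a| < ε / 2 := h2
    have h6 := lt_of_le_of_lt h4 h3
    rw [abs_lt] at h5 h6 ⊢
    constructor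
    · linarith [h5.1, h6.2]
    · linarith [h5.2, h6.1]

end USM
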