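import Pool.Agent.Helper51.USM.REFL
import Pool.Agent.Helper51.USM.HUMP
import Pool.Agent.Helper51.USM.BAS

/-! # Assembly -/

namespace USM

open Filter Topology

/-- `N` is the spreading model generated by the normalized weakly null sequence `x`. -/
def SM (x : ℕ → XS) (N : ∀ k : ℕ, (Fin k → ℝ) → ℝ) : Prop :=
  (∀ n, ‖x n‖ = 1) ∧ (∀ f : XS →L[ℝ] ℝ, Tendsto (fun n => f (x n)) atTop (𝓝 0)) ∧
    (∀ (k : ℕ) (a : Fin k → ℝ) (ε : ℝ), 0 < ε → ∃ m : ℕ, ∀ n : Fin k → ℕ,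
      StrictMono n → (∀ i, m ≤ n i) → |‖∑ i, a i • x (n i)‖ - N k a| < ε)

theorem PB.nonneg {k : ℕ} {a : Fin k → ℝ} {E : ℝ} (h : PB a E) : 0 ≤ E := by
  have := h.2 0 ∅ (by simp)
  simpa using this

theorem PB.mono {k : ℕ} {a : Fin k → ℝ} {E F : ℝ} (h : PB a E) (hEF : E ≤ F) : PB a F :=
  ⟨fun i => (h.1 i).trans hEF, fun r B hB => (h.2 r B hB).trans hEF⟩

/-- The model norm bound is a closed condition. -/
theorem PB.of_forall {k : ℕ} {a : Fin k → ℝ} {E : ℝ} (h : ∀ ε : ℝ, 0 < ε → PB a (E + ε)) :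
    PB a E := by
  refine ⟨fun i => le_of_forall_pos_le_add fun ε hε => (h ε hε).1 i, fun r B hB =>
    le_of_forall_pos_le_add fun ε hε => (h ε hε).2 r B hB⟩

theorem co_sum_smul {k : ℕ} (a : Fin k → ℝ) (x : Fin k → XS) :
    co (∑ i, a i • x i) = ∑ i, a i • co (x i) := by
  rw [co_sum]
  rfl

/-- Far out strictly increasing tuples exist. -/
theorem exists_tuple (k m : ℕ) : ∃ n : Fin k → ℕ, StrictMono n ∧ ∀ i, m ≤ n i :=
  ⟨fun i => m + i, fun i j hij => Nat.add_lt_add_left hij m, fun i => Nat.le_add_right m i⟩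

/-- Two sided estimate for every spreading model. -/
theorem SM.model {x : ℕ → XS} {N : ∀ k : ℕ, (Fin k → ℝ) → ℝ} (h : SM x N) :
    (∀ (k : ℕ) (a : Fin k → ℝ) (E : ℝ), PB a E → N k a ≤ 36 * E) ∧
      ∃ δ : ℝ, 0 < δ ∧ ∀ (k : ℕ) (a : Fin k → ℝ), PB a (N k a / δ) := by
  obtain ⟨hx, hw, hN⟩ := h
  obtain ⟨y, hfin, hsucc, hk, hy1, hlow, hNy⟩ := hump_model x N hx hw hN
  constructor
  · intro k a E hE
    refine le_of_forall_pos_le_add fun ε hε => ?_
    obtain ⟨m, hm⟩ := hNy k a ε hε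
    obtain ⟨n, hn, hmn⟩ := exists_tuple k (max m (k + 1))
    have h1 := hm n hn fun i => (le_max_left _ _).trans (hmn i)
    have h2 : ‖∑ i, a i • y (n i)‖ ≤ 36 * E := by
      rw [norm_le_iff _ (by have := hE.nonneg; positivity), co_sum_smul]
      refine upper (y := fun i => co (y (n i))) ?_ ?_ ?_ a E hE
      · intro i j hij p q hp hq
        exact hsucc (n i) (n j) (hn hij) p q hp hq
      · intro i
        exact (norm_le_iff _ zero_le_one).1 (hy1 (n i))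
      · intro i p hp
        exact ((le_max_right _ _).trans (hmn i)).trans (hk (n i) p hp)
    have h3 := abs_lt.1 h1
    linarith [h3.1]
  · obtain ⟨δ, hδ, φ, hφ, hlb⟩ := lower_select (fun k => co (y k)) hfin hsucc hk hlow
    refine ⟨δ, hδ, fun k a => ?_⟩
    refine PB.of_forall fun ε hε => ?_
    obtain ⟨m, hm⟩ := hNy k a (ε * δ) (mul_pos hε hδ)
    obtain ⟨n, hn, hmn⟩ := exists_tuple k m
    have h1 := hm (fun i => φ (n i)) (hφ.comp hn) fun i => (hmn i).trans (hφ.id_le (n i))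
    have h2 := hlb k a n hn ‖∑ i, a i • y (φ (n i))‖ (by
      rw [← co_sum_smul]
      exact NB_norm _)
    refine h2.mono ?_
    rw [div_le_iff₀ hδ, add_mul, div_mul_cancel₀ _ hδ.ne']
    have h3 := abs_lt.1 h1
    linarith [h3.2]

theorem norm_e (i : ℕ) : ‖e i‖ = 1 := by
  apply le_antisymm
  · rw [norm_le_iff _ zero_le_one, co_e]
    intro r f hf
    rw [pr_eq_sum]
    have h1 : ∑ j ∈ f.support, f j * (Pi.single i 1 : ℕ → ℝ) j = f i := by
      by_cases hi : i ∈ f.support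
      · rw [Finset.sum_eq_single i]
        · simp
        · intro b _ hb
          simp [Pi.single_apply, hb]
        · intro h
          exact absurd hi h
      · rw [Finsupp.notMem_support_iff.1 hi]
        refine Finset.sum_eq_zero fun j hj => ?_
        have : j ≠ i := fun h => hi (h ▸ hj)
        simp [Pi.single_apply, this]
    rw [h1]
    exact (le_abs_self _).trans (hf.abs_le i)
  · have := (NB_norm (e i)).coord i
    rw [co_e] at this
    simpa using this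

/-- The basis is weakly null. -/
theorem weakly_null_e (f : XS →L[ℝ] ℝ) : Tendsto (fun n => f (e n)) atTop (𝓝 0) := by
  rw [Metric.tendsto_atTop]
  intro ε hε
  obtain ⟨m, hm⟩ := shrinking f (ε / 2) (half_pos hε)
  refine ⟨m, fun n hn => ?_⟩
  rw [dist_zero_right]
  have h1 := hm (e n)
  have h2 : blk (co (e n)) 0 m = 0 := by
    apply co_injective
    rw [co_blk, co_zero, co_e]
    funext i
    by_cases hi : i < m
    · have : i ≠ n := by omega
      simp [this]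
    · simp [hi]
  rw [h2, sub_zero, norm_e, mul_one] at h1
  rw [Real.norm_eq_abs]
  exact lt_of_le_of_lt h1 (half_lt_self hε)

theorem norm_sum_e_le {k : ℕ} (a : Fin k → ℝ) (u v : Fin k → ℕ) (hu : StrictMono u)
    (hv : StrictMono v) (hu' : ∀ i, k + 1 ≤ u i) (hv' : ∀ i, k + 1 ≤ v i) :
    ‖∑ i, a i • e (v i)‖ ≤ ‖∑ i, a i • e (u i)‖ := by
  rw [norm_le_iff _ (norm_nonneg _), co_sum_smul]
  simp only [co_e]
  refine basis_spread a u v hu hv hu' hv' _ ?_
  have := NB_norm (∑ i, a i • e (u i))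
  rw [co_sum_smul] at this
  simpa only [co_e] using this

/-- The basis generates a spreading model. -/
theorem exists_SM : ∃ N, SM e N := by
  refine ⟨fun k a => ‖∑ i, a i • e (k + 1 + (i : ℕ))‖, norm_e, weakly_null_e, ?_⟩
  intro k a ε hε
  refine ⟨k + 1, fun n hn hn' => ?_⟩
  have h0 : StrictMono fun i : Fin k => k + 1 + (i : ℕ) := fun i j hij =>
    Nat.add_lt_add_left hij _
  have h0' : ∀ i : Fin k, k + 1 ≤ k + 1 + (i : ℕ) := fun i => Nat.le_add_right _ _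
  have h1 := norm_sum_e_le a n (fun i : Fin k => k + 1 + (i : ℕ)) hn h0 hn' h0'
  have h2 := norm_sum_e_le a (fun i : Fin k => k + 1 + (i : ℕ)) n h0 hn h0' hn'
  have h3 : ‖∑ i, a i • e (n i)‖ = ‖∑ i, a i • e (k + 1 + (i : ℕ))‖ := le_antisymm h2 h1
  show |‖∑ i, a i • e (n i)‖ - ‖∑ i, a i • e (k + 1 + (i : ℕ))‖| < ε
  rw [h3, sub_self, abs_zero]
  exact hε

theorem unique_SM {x y : ℕ → XS} {N M : ∀ k : ℕ, (Fin k → ℝ) → ℝ} (hx : SM x N) (hy : SM y M) :
    ∃ C : ℝ, 0 < C ∧ ∀ (k : ℕ) (a : Fin k → ℝ), N k a ≤ C * M k a ∧ M k a ≤ C * N k a := by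
  obtain ⟨hN, δ, hδ, hNδ⟩ := hx.model
  obtain ⟨hM, δ', hδ', hMδ⟩ := hy.model
  refine ⟨36 / δ + 36 / δ', by positivity, fun k a => ?_⟩
  have h1 := hN k a _ (hMδ k a)
  have h2 := hM k a _ (hNδ k a)
  have h3 : 0 ≤ M k a / δ' := (hMδ k a).nonneg
  have h4 : 0 ≤ N k a / δ := (hNδ k a).nonneg
  have h3' : 0 ≤ M k a := by
    have := mul_nonneg h3 hδ'.le
    rwa [div_mul_cancel₀ _ hδ'.ne'] at this
  have h4' : 0 ≤ N k a := by
    have := mul_nonneg h4 hδ.le
    rwa [div_mul_cancel₀ _ hδ.ne'] at this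
  constructor
  · calc N k a ≤ 36 * (M k a / δ') := h1
      _ = 36 / δ' * M k a := by ring
      _ ≤ (36 / δ + 36 / δ') * M k a := by
        refine mul_le_mul_of_nonneg_right ?_ h3'
        have : 0 ≤ 36 / δ := by positivity
        linarith
  · calc M k a ≤ 36 * (N k a / δ) := h2
      _ = 36 / δ * N k a := by ring
      _ ≤ (36 / δ + 36 / δ') * N k a := by
        refine mul_le_mul_of_nonneg_right ?_ h4'
        have : 0 ≤ 36 / δ' := by positivity
        linarith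

theorem not_lp {x : ℕ → XS} {N : ∀ k : ℕ, (Fin k → ℝ) → ℝ} (h : SM x N) (p : ℝ) (hp : 1 ≤ p)
    (C : ℝ) (hC : 0 < C) : ∃ (k : ℕ) (a : Fin k → ℝ),
      C * N k a < (∑ i, |a i| ^ p) ^ (1 / p) := by
  obtain ⟨r, hr⟩ := exists_root_gt p (by linarith) (C * 36)
  refine ⟨L r, fun _ => 1, ?_⟩
  have h1 := h.model.1 (L r) (fun _ => 1) _ (PB_ones r)
  have h2 : (∑ _i : Fin (L r), |(1 : ℝ)| ^ p) = ((L r : ℕ) : ℝ) := by
    simp
  rw [h2]
  refine lt_of_le_of_lt ?_ hr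
  calc C * N (L r) (fun _ => 1) ≤ C * (36 * ((r : ℝ) + 1)) :=
        mul_le_mul_of_nonneg_left h1 hC.le
    _ = C * 36 * ((r : ℝ) + 1) := by ring

theorem not_c0 {x : ℕ → XS} {N : ∀ k : ℕ, (Fin k → ℝ) → ℝ} (h : SM x N)
    (C : ℝ) (hC : 0 < C) : ∃ (k : ℕ) (a : Fin k → ℝ), C * ‖a‖ < N k a := by
  obtain ⟨δ, hδ, hlow⟩ := h.model.2
  obtain ⟨r, hr⟩ := exists_nat_gt (C / δ)
  refine ⟨L r, fun _ => 1, ?_⟩
  have h1 := le_of_PB_ones r (hlow (L r) fun _ => 1)
  have h2 : ‖(fun _ : Fin (L r) => (1 : ℝ))‖ ≤ 1 := by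
    rw [pi_norm_le_iff_of_nonneg zero_le_one]
    intro i
    simp
  have h3 : C < r * δ := by
    rwa [div_lt_iff₀ hδ] at hr
  have h4 : ((r : ℝ) + 1) * δ ≤ N (L r) fun _ => 1 := by
    rwa [le_div_iff₀ hδ] at h1
  calc C * ‖(fun _ : Fin (L r) => (1 : ℝ))‖ ≤ C * 1 := mul_le_mul_of_nonneg_left h2 hC.le
    _ < r * δ := by rw [mul_one]; exact h3
    _ ≤ ((r : ℝ) + 1) * δ := by nlinarith
    _ ≤ N (L r) fun _ => 1 := h4

end USM
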