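import Pool.Agent.Helper51.USM.Basic

/-! # Grouping -/

namespace USM

theorem group_bound {ι : Type} (J : Finset ι) (v : ι → ℝ) (l : ℕ) (hl : 0 < l) (B : ℝ)
    (hB : 0 ≤ B) (h : ∀ A ⊆ J, A.card ≤ l → ∑ j ∈ A, v j ≤ B) :
    ∑ j ∈ J, v j ≤ ((J.card : ℝ) / (l : ℝ) + 1) * B := by
  classical
  have hl' : (0 : ℝ) < l := by exact_mod_cast hl
  induction J using Finset.strongInduction with
  | H J ih =>
    by_cases hJ : J.card ≤ l
    · have h1 := h J (Finset.Subset.refl J) hJ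
      have h2 : 0 ≤ (J.card : ℝ) / (l : ℝ) := by positivity
      nlinarith
    · push Not at hJ
      obtain ⟨A, hAJ, hAc⟩ := Finset.exists_subset_card_eq (s := J) (n := l) hJ.le
      have hne : A.Nonempty := by
        rw [← Finset.card_pos, hAc]
        exact hl
      have hss : J \ A ⊂ J := by
        refine Finset.ssubset_iff_subset_ne.2 ⟨Finset.sdiff_subset, ?_⟩
        intro e
        obtain ⟨a, ha⟩ := hne
        have := hAJ ha
        rw [← e] at this
        exact (Finset.mem_sdiff.1 this).2 ha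
      have h1 := ih (J \ A) hss (fun A' hA' hc =>
        h A' (hA'.trans Finset.sdiff_subset) hc)
      have h2 : ∑ j ∈ A, v j ≤ B := h A hAJ hAc.le
      have h3 : ∑ j ∈ J, v j = ∑ j ∈ J \ A, v j + ∑ j ∈ A, v j :=
        (Finset.sum_sdiff hAJ).symm
      have h4 : ((J \ A).card : ℝ) = (J.card : ℝ) - l := by
        rw [Finset.card_sdiff_of_subset hAJ, hAc, Nat.cast_sub hJ.le]
      rw [h4] at h1
      have h5 : ((J.card : ℝ) - l) / l = (J.card : ℝ) / l - 1 := by
        rw [sub_div, div_self hl'.ne']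
      rw [h5] at h1
      rw [h3]
      have h6 : ((J.card : ℝ) / l - 1 + 1) * B + B = ((J.card : ℝ) / l + 1) * B := by ring
      linarith

theorem Chain.sum_le {A : Finset ℕ} {f : ℕ → ℕ →₀ ℝ} {ind : ℕ → ℕ∞} (h : Chain A f ind)
    {y : ℕ → ℝ} (hy : NB y 1) : ∑ j ∈ A, pr (f j) y ≤ (A.card : ℝ) := by
  calc ∑ j ∈ A, pr (f j) y ≤ ∑ _j ∈ A, (1 : ℝ) :=
        Finset.sum_le_sum fun j hj => hy _ _ (h.mem j hj)
    _ = (A.card : ℝ) := by rw [Finset.sum_const, nsmul_eq_mul, mul_one]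

theorem Chain.sum_le' {A : Finset ℕ} {f : ℕ → ℕ →₀ ℝ} {ind : ℕ → ℕ∞} (h : Chain A f ind)
    {y : ℕ → ℝ} (hy : NB y 1) (t : ℕ) :
    ∑ j ∈ A, pr (f j) y ≤ ((A.card : ℝ) + (L t : ℝ)) / ((t : ℝ) + 1) := by
  have hw := w_pos t
  have hL := L_pos' t
  have ht : (0 : ℝ) < (t : ℝ) + 1 := by positivity
  have h1 := group_bound A (fun j => pr (f j) y) (L t) (L_pos t) (1 / w t) (by positivity) (by
    intro A' hA' hc
    have h2 := hy _ _ ((h.mono hA').isW hc)
    rw [pr_smul_left, pr_sum_left] at h2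
    rw [le_div_iff₀ hw]
    linarith)
  refine h1.trans (le_of_eq ?_)
  have h3 := w_mul_L t
  rw [← h3]
  field_simp

end USM
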