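import Pool.Agent.Helper51.USM.GRP

/-! # Which vectors a functional meets -/

namespace USM

open Classical in
/-- The indices `i` such that the supports of `f` and `y i` meet. -/
noncomputable def meet {n : ℕ} (y : Fin n → ℕ → ℝ) (f : ℕ →₀ ℝ) : Finset (Fin n) :=
  Finset.univ.filter fun i => ∃ p ∈ f.support, y i p ≠ 0

theorem mem_meet {n : ℕ} {y : Fin n → ℕ → ℝ} {f : ℕ →₀ ℝ} {i : Fin n} :
    i ∈ meet y f ↔ ∃ p ∈ f.support, y i p ≠ 0 := by
  simp [meet]

theorem meet_le {n : ℕ} {y : Fin n → ℕ → ℝ} (hy : Succ y) {A : Finset ℕ} {f : ℕ → ℕ →₀ ℝ}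
    {ind : ℕ → ℕ∞} (h : Chain A f ind) {j j' : ℕ} (hj : j ∈ A) (hj' : j' ∈ A) (hlt : j < j')
    {i i' : Fin n} (hi : i ∈ meet y (f j)) (hi' : i' ∈ meet y (f j')) : i ≤ i' := by
  obtain ⟨p, hp, hyp⟩ := mem_meet.1 hi
  obtain ⟨q, hq, hyq⟩ := mem_meet.1 hi'
  by_contra hcon
  push Not at hcon
  have h1 : p < q := h.lt j hj j' hj' hlt p hp q hq
  have h2 : q < p := hy i' i hcon q p hyq hyp
  omega

theorem meet_sub {n : ℕ} (y : Fin n → ℕ → ℝ) {A : Finset ℕ} {f : ℕ → ℕ →₀ ℝ}
    {ind : ℕ → ℕ∞} (h : Chain A f ind) {j : ℕ} (hj : j ∈ A) (s : ℕ) :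
    meet y (f j) ⊆ meet y (w s • ∑ l ∈ A, f l) := by
  intro i hi
  obtain ⟨p, hp, hyp⟩ := mem_meet.1 hi
  refine mem_meet.2 ⟨p, ?_, hyp⟩
  rw [Finsupp.mem_support_iff, Finsupp.smul_apply, Finsupp.finsetSum_apply, smul_eq_mul]
  rw [Finset.sum_eq_single j]
  · exact mul_ne_zero (w_pos s).ne' (Finsupp.mem_support_iff.1 hp)
  · intro l hl hlj
    by_contra hne
    rcases lt_or_gt_of_ne hlj with hlt | hlt
    · exact lt_irrefl p (h.lt l hl j hj hlt p (Finsupp.mem_support_iff.2 hne) p hp)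
    · exact lt_irrefl p (h.lt j hj l hl hlt p hp p (Finsupp.mem_support_iff.2 hne))
  · intro hj'
    exact absurd hj hj'

theorem sets_pr_not_meet {n : ℕ} {y : Fin n → ℕ → ℝ} {f : ℕ →₀ ℝ} {i : Fin n}
    (h : i ∉ meet y f) : pr f (y i) = 0 := by
  refine pr_eq_zero fun p hp => ?_
  by_contra hne
  exact h (mem_meet.2 ⟨p, hp, hne⟩)

theorem pr_meet {n : ℕ} (y : Fin n → ℕ → ℝ) (a : Fin n → ℝ) (f : ℕ →₀ ℝ) :
    pr f (∑ i, a i • y i) = ∑ i ∈ meet y f, a i * pr f (y i) := by
  rw [pr_sum]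
  rw [← Finset.sum_subset (Finset.subset_univ (meet y f))]
  · exact Finset.sum_congr rfl fun i _ => pr_smul _ _ _
  · intro i _ hi
    rw [pr_smul, sets_pr_not_meet hi, mul_zero]

/-- Sorting the members of a chain by the vectors that they meet. -/
theorem decomp {n : ℕ} {y : Fin n → ℕ → ℝ} (hN : ∀ i, NB (y i) 1) (a : Fin n → ℝ)
    {A : Finset ℕ} {f : ℕ → ℕ →₀ ℝ} {ind : ℕ → ℕ∞} (h : Chain A f ind) :
    ∃ (k : Fin n → ℕ) (V : Fin n → ℝ), ∑ i, k i ≤ A.card ∧ (∀ i, V i ≤ (k i : ℝ)) ∧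
      (∀ i (t : ℕ), V i ≤ ((k i : ℝ) + (L t : ℝ)) / ((t : ℝ) + 1)) ∧
      (∀ i, k i ≠ 0 → ∃ j ∈ A, i ∈ meet y (f j)) ∧
      ∑ j ∈ A, pr (f j) (∑ i, a i • y i) = ∑ i, a i * V i +
        ∑ j ∈ A.filter (fun j => 2 ≤ (meet y (f j)).card), pr (f j) (∑ i, a i • y i) := by
  classical
  refine ⟨fun i => (A.filter fun j => meet y (f j) = {i}).card,
    fun i => ∑ j ∈ A.filter (fun j => meet y (f j) = {i}), pr (f j) (y i), ?_, ?_, ?_, ?_, ?_⟩
  · rw [← Finset.card_biUnion]
    · refine Finset.card_le_card ?_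
      intro j hj
      rw [Finset.mem_biUnion] at hj
      obtain ⟨i, _, hi⟩ := hj
      exact Finset.mem_of_mem_filter j hi
    · intro i _ i' _ hne
      show Disjoint _ _
      rw [Finset.disjoint_left]
      intro j hj hj'
      rw [Finset.mem_filter] at hj hj'
      exact hne (Finset.singleton_injective (hj.2.symm.trans hj'.2))
  · intro i
    exact (h.mono (Finset.filter_subset _ _)).sum_le (hN i)
  · intro i t
    exact (h.mono (Finset.filter_subset _ _)).sum_le' (hN i) t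
  · intro i hi
    obtain ⟨j, hj⟩ := Finset.card_pos.1 (Nat.pos_of_ne_zero hi)
    rw [Finset.mem_filter] at hj
    refine ⟨j, hj.1, ?_⟩
    rw [hj.2]
    exact Finset.mem_singleton_self i
  · have key : ∀ j ∈ A, pr (f j) (∑ i, a i • y i) =
        (∑ i, if meet y (f j) = {i} then a i * pr (f j) (y i) else 0) +
          (if 2 ≤ (meet y (f j)).card then pr (f j) (∑ i, a i • y i) else 0) := by
      intro j _
      by_cases h2 : 2 ≤ (meet y (f j)).card
      · have h0 : (∑ i, if meet y (f j) = {i} then a i * pr (f j) (y i) else 0) = 0 := by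
          refine Finset.sum_eq_zero fun i _ => ?_
          rw [if_neg]
          intro he
          rw [he, Finset.card_singleton] at h2
          omega
        rw [if_pos h2, h0, zero_add]
      · rw [if_neg h2, add_zero]
        rw [not_le] at h2
        rcases Nat.eq_zero_or_pos (meet y (f j)).card with h0 | h1
        · rw [Finset.card_eq_zero] at h0
          rw [pr_meet, h0, Finset.sum_empty]
          symm
          refine Finset.sum_eq_zero fun i _ => ?_
          rw [if_neg]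
          exact (Finset.singleton_ne_empty i).symm
        · have h1' : (meet y (f j)).card = 1 := by omega
          obtain ⟨i0, hi0⟩ := Finset.card_eq_one.1 h1'
          rw [pr_meet, hi0, Finset.sum_singleton]
          rw [Finset.sum_eq_single i0]
          · rw [if_pos rfl]
          · intro i _ hi
            rw [if_neg]
            intro he
            exact hi (Finset.singleton_injective he).symm
          · intro hn
            exact absurd (Finset.mem_univ _) hn
    rw [Finset.sum_congr rfl key, Finset.sum_add_distrib, ← Finset.sum_filter]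
    congr 1
    rw [Finset.sum_comm]
    refine Finset.sum_congr rfl fun i _ => ?_
    rw [← Finset.sum_filter, Finset.mul_sum]

theorem sets_min_max {n : ℕ} {S : Finset (Fin n)} (h : 2 ≤ S.card) :
    ∃ lo hi : Fin n, lo ∈ S ∧ hi ∈ S ∧ lo < hi ∧ ∀ i ∈ S, lo ≤ i ∧ i ≤ hi := by
  have hne : S.Nonempty := Finset.card_pos.1 (by omega)
  refine ⟨S.min' hne, S.max' hne, S.min'_mem hne, S.max'_mem hne, ?_, fun i hi =>
    ⟨S.min'_le i hi, S.le_max' i hi⟩⟩
  exact Finset.min'_lt_max'_of_card S (by omega)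

theorem card_K {n : ℕ} {y : Fin n → ℕ → ℝ} (hy : Succ y) {A : Finset ℕ} {f : ℕ → ℕ →₀ ℝ}
    {ind : ℕ → ℕ∞} (h : Chain A f ind) :
    (A.filter (fun j => 2 ≤ (meet y (f j)).card)).card ≤ n := by
  classical
  have hex : ∀ j : ℕ, ∃ lo : Option (Fin n), j ∈ A.filter (fun j => 2 ≤ (meet y (f j)).card) →
      ∃ l hi : Fin n, lo = some l ∧ l ∈ meet y (f j) ∧ hi ∈ meet y (f j) ∧ l < hi := by
    intro j
    by_cases hj : j ∈ A.filter (fun j => 2 ≤ (meet y (f j)).card)
    · rw [Finset.mem_filter] at hj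
      obtain ⟨lo, hi, h1, h2, h3, _⟩ := sets_min_max hj.2
      exact ⟨some lo, fun _ => ⟨lo, hi, rfl, h1, h2, h3⟩⟩
    · exact ⟨none, fun hj' => absurd hj' hj⟩
  choose g hg using hex
  have hinj : ∀ j ∈ A.filter (fun j => 2 ≤ (meet y (f j)).card),
      ∀ j' ∈ A.filter (fun j => 2 ≤ (meet y (f j)).card), j < j' → g j ≠ g j' := by
    intro j hj j' hj' hlt he
    obtain ⟨l, hi, e1, m1, m2, m3⟩ := hg j hj
    obtain ⟨l', hi', e1', m1', m2', m3'⟩ := hg j' hj'
    have hle := meet_le hy h (Finset.mem_of_mem_filter j hj) (Finset.mem_of_mem_filter j' hj')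
      hlt m2 m1'
    have : l = l' := by
      have := e1.symm.trans (he.trans e1')
      exact Option.some.inj this
    rw [← this] at hle
    exact absurd m3 (not_lt.2 hle)
  have hcard : (A.filter (fun j => 2 ≤ (meet y (f j)).card)).card ≤
      ((Finset.univ : Finset (Fin n)).image some).card := by
    refine Finset.card_le_card_of_injOn g ?_ ?_
    · intro j hj
      obtain ⟨l, hi, e1, _⟩ := hg j hj
      rw [e1]
      simp
    · intro j hj j' hj' he
      rcases lt_trichotomy j j' with hlt | heq | hlt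
      · exact absurd he (hinj j hj j' hj' hlt)
      · exact heq
      · exact absurd he.symm (hinj j' hj' j hj hlt)
  refine hcard.trans (Finset.card_image_le.trans ?_)
  simp

theorem sets_sum_inj {n : ℕ} (a : Fin n → ℝ) (m : ℕ) (B : ℝ)
    (hB : ∀ J : Finset (Fin n), J.card ≤ m → ∑ i ∈ J, a i ≤ B) (c : ℕ → Fin n)
    (S : Finset ℕ) (hS : S.card ≤ m) (hinj : ∀ j ∈ S, ∀ j' ∈ S, j < j' → c j ≠ c j') :
    ∑ j ∈ S, a (c j) ≤ B := by
  classical
  have hI : Set.InjOn c (S : Set ℕ) := by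
    intro j hj j' hj' he
    rcases lt_trichotomy j j' with hlt | heq | hlt
    · exact absurd he (hinj j hj j' hj' hlt)
    · exact heq
    · exact absurd he.symm (hinj j' hj' j hj hlt)
  have h1 : ∑ j ∈ S, a (c j) = ∑ i ∈ S.image c, a i := by
    rw [Finset.sum_image hI]
  rw [h1]
  exact hB _ (Finset.card_image_le.trans hS)

/-- Members of a chain that meet at least two vectors are at most two-to-one. -/
theorem sum_K {n : ℕ} {y : Fin n → ℕ → ℝ} (hy : Succ y) (a : Fin n → ℝ) (ha : ∀ i, 0 ≤ a i)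
    {A : Finset ℕ} {f : ℕ → ℕ →₀ ℝ} {ind : ℕ → ℕ∞} (h : Chain A f ind) (m : ℕ)
    (hA : A.card ≤ m) (B : ℝ) (hB : ∀ J : Finset (Fin n), J.card ≤ m → ∑ i ∈ J, a i ≤ B)
    (c : ℕ → Fin n)
    (hc : ∀ j ∈ A.filter (fun j => 2 ≤ (meet y (f j)).card), c j ∈ meet y (f j)) :
    ∑ j ∈ A.filter (fun j => 2 ≤ (meet y (f j)).card), a (c j) ≤ 2 * B := by
  classical
  have hKm : ∀ S ⊆ A.filter (fun j => 2 ≤ (meet y (f j)).card), S.card ≤ m := fun S hS =>
    (Finset.card_le_card (hS.trans (Finset.filter_subset _ _))).trans hA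
  rw [← Finset.sum_filter_add_sum_filter_not
    (A.filter (fun j => 2 ≤ (meet y (f j)).card)) (fun j => ∃ i ∈ meet y (f j), i < c j)]
  have h1 : ∑ j ∈ (A.filter (fun j => 2 ≤ (meet y (f j)).card)).filter
      (fun j => ∃ i ∈ meet y (f j), i < c j), a (c j) ≤ B := by
    refine sets_sum_inj a m B hB c _ (hKm _ (Finset.filter_subset _ _)) ?_
    intro j hj j' hj' hlt he
    rw [Finset.mem_filter] at hj hj'
    obtain ⟨i', hi', hlt'⟩ := hj'.2
    have := meet_le hy h (Finset.mem_of_mem_filter j hj.1) (Finset.mem_of_mem_filter j' hj'.1)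
      hlt (hc j hj.1) hi'
    rw [he] at this
    exact absurd hlt' (not_lt.2 this)
  have h2 : ∑ j ∈ (A.filter (fun j => 2 ≤ (meet y (f j)).card)).filter
      (fun j => ¬ ∃ i ∈ meet y (f j), i < c j), a (c j) ≤ B := by
    refine sets_sum_inj a m B hB c _ (hKm _ (Finset.filter_subset _ _)) ?_
    intro j hj j' hj' hlt he
    rw [Finset.mem_filter] at hj hj'
    obtain ⟨lo, hi, m1, m2, m3, m4⟩ := sets_min_max (Finset.mem_filter.1 hj.1).2
    have hle := meet_le hy h (Finset.mem_of_mem_filter j hj.1)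
      (Finset.mem_of_mem_filter j' hj'.1) hlt m2 (hc j' hj'.1)
    have hlo : ¬ lo < c j := fun hcon => hj.2 ⟨lo, m1, hcon⟩
    rw [not_lt] at hlo
    rw [← he] at hle
    exact absurd m3 (not_lt.2 (hle.trans hlo))
  linarith

end USM
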