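import Pool.Agent.Helper51.USM.NUM
import Pool.Agent.Helper51.USM.SETS

/-! # Functionals of large index -/

namespace USM

/-- A functional of large index sees essentially one of the vectors. -/
theorem large_index {n : ℕ} {y : Fin n → ℕ → ℝ} (hy : Succ y) (hN : ∀ i, NB (y i) 1)
    (a : Fin n → ℝ) (ha : ∀ i, 0 ≤ a i) {s : ℕ} (hs : n + 1 ≤ s) {g : ℕ →₀ ℝ}
    (hg : IsW (s : ℕ∞) g) (b : ℝ) (hb : 0 ≤ b) (hab : ∀ i ∈ meet y g, a i ≤ b) :
    pr g (∑ i, a i • y i) ≤ 5 * b := by
  classical
  rcases hg.cases' with ⟨htop, _⟩ | ⟨s', A, f, ind, hs', hA, hch, hge⟩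
  · exact absurd htop (ENat.natCast_ne_top s)
  · have hss : s = s' := by exact_mod_cast hs'
    subst hss
    obtain ⟨k, V, hk, hV, hV', hmeet, hdec⟩ := decomp hN a hch
    subst hge
    rw [pr_smul_left, pr_sum_left, hdec]
    have hwpos := w_pos s
    have hLpos := L_pos' s
    obtain ⟨t, rfl⟩ : ∃ t, s = t + 1 := ⟨s - 1, by omega⟩
    have hnL : n ≤ L t := by
      have := num_le_L hs
      simpa using this
    have hnL' : (n : ℝ) ≤ (L t : ℝ) := by exact_mod_cast hnL
    have htpos : (0 : ℝ) < (t : ℝ) + 1 := by positivity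
    have hLt : (0 : ℝ) < (L t : ℝ) := L_pos' t
    -- the part with the `V i`
    have h1 : ∀ i, a i * V i ≤ b * (((k i : ℝ) + (L t : ℝ)) / ((t : ℝ) + 1)) := by
      intro i
      have hU : 0 ≤ ((k i : ℝ) + (L t : ℝ)) / ((t : ℝ) + 1) := by positivity
      by_cases hki : k i = 0
      · have : V i ≤ 0 := by
          have := hV i
          rw [hki] at this
          simpa using this
        exact (mul_nonpos_of_nonneg_of_nonpos (ha i) this).trans (mul_nonneg hb hU)
      · obtain ⟨j, hj, hij⟩ := hmeet i hki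
        have hi : a i ≤ b := hab i (meet_sub y hch hj _ hij)
        exact (mul_le_mul_of_nonneg_left (hV' i t) (ha i)).trans
          (mul_le_mul_of_nonneg_right hi hU)
    have h2 : ∑ i, a i * V i ≤ b * (2 * (L (t + 1) : ℝ) / ((t : ℝ) + 1)) := by
      refine (Finset.sum_le_sum fun i _ => h1 i).trans ?_
      rw [← Finset.mul_sum, ← Finset.sum_div]
      refine mul_le_mul_of_nonneg_left ?_ hb
      refine div_le_div_of_nonneg_right ?_ htpos.le
      rw [Finset.sum_add_distrib, Finset.sum_const, Finset.card_univ, Fintype.card_fin,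
        nsmul_eq_mul]
      have h3 : (∑ i, (k i : ℝ)) ≤ (L (t + 1) : ℝ) := by exact_mod_cast hk.trans hA
      have h4 : (n : ℝ) * (L t : ℝ) ≤ (L (t + 1) : ℝ) := by
        rw [L_succ]
        push_cast
        nlinarith
      linarith
    have h5 : w (t + 1) * (b * (2 * (L (t + 1) : ℝ) / ((t : ℝ) + 1))) ≤ 4 * b := by
      have e : w (t + 1) * (b * (2 * (L (t + 1) : ℝ) / ((t : ℝ) + 1))) =
          (w (t + 1) * (L (t + 1) : ℝ)) * (2 * b) / ((t : ℝ) + 1) := by ring
      rw [e, w_mul_L, div_le_iff₀ htpos]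
      push_cast
      nlinarith [mul_nonneg hb (Nat.cast_nonneg t : (0 : ℝ) ≤ t)]
    -- the members that meet at least two vectors
    have h6 : ∀ j ∈ A.filter (fun j => 2 ≤ (meet y (f j)).card),
        pr (f j) (∑ i, a i • y i) ≤ (n : ℝ) * b := by
      intro j hj
      have hjA := (Finset.mem_filter.1 hj).1
      rw [pr_meet]
      calc ∑ i ∈ meet y (f j), a i * pr (f j) (y i)
          ≤ ∑ i ∈ meet y (f j), b := by
            refine Finset.sum_le_sum fun i hi => ?_
            have hi' : a i ≤ b := hab i (meet_sub y hch hjA _ hi)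
            have h7 : pr (f j) (y i) ≤ 1 := hN i _ _ (hch.mem j hjA)
            calc a i * pr (f j) (y i) ≤ a i * 1 := mul_le_mul_of_nonneg_left h7 (ha i)
              _ ≤ b := by rw [mul_one]; exact hi'
        _ = ((meet y (f j)).card : ℝ) * b := by rw [Finset.sum_const, nsmul_eq_mul]
        _ ≤ (n : ℝ) * b := by
            refine mul_le_mul_of_nonneg_right ?_ hb
            have := Finset.card_le_univ (meet y (f j))
            rw [Fintype.card_fin] at this
            exact_mod_cast this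
    have h8 : ∑ j ∈ A.filter (fun j => 2 ≤ (meet y (f j)).card), pr (f j) (∑ i, a i • y i)
        ≤ (n : ℝ) ^ 2 * b := by
      refine (Finset.sum_le_sum h6).trans ?_
      rw [Finset.sum_const, nsmul_eq_mul]
      have h9 : ((A.filter (fun j => 2 ≤ (meet y (f j)).card)).card : ℝ) ≤ (n : ℝ) := by
        exact_mod_cast card_K hy hch
      have h10 : 0 ≤ (n : ℝ) * b := by positivity
      nlinarith
    have h11 : w (t + 1) * ((n : ℝ) ^ 2 * b) ≤ b := by
      have := num_w_sq hs
      nlinarith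
    calc w (t + 1) * (∑ i, a i * V i +
          ∑ j ∈ A.filter (fun j => 2 ≤ (meet y (f j)).card), pr (f j) (∑ i, a i • y i))
        ≤ w (t + 1) * (b * (2 * (L (t + 1) : ℝ) / ((t : ℝ) + 1)) + (n : ℝ) ^ 2 * b) :=
          mul_le_mul_of_nonneg_left (add_le_add h2 h8) hwpos.le
      _ = w (t + 1) * (b * (2 * (L (t + 1) : ℝ) / ((t : ℝ) + 1))) +
            w (t + 1) * ((n : ℝ) ^ 2 * b) := by ring
      _ ≤ 4 * b + b := add_le_add h5 h11
      _ = 5 * b := by ring

end USM
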