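import Pool.Agent.Helper51.USM.Basic

/-! # The dichotomy for norming functionals -/

namespace USM

theorem dicho (m : ℕ) (y : ℕ → ℝ) (hm : ∀ p, y p ≠ 0 → m ≤ p) (c : ℝ) (hc : 0 < c) (S : ℕ)
    {r : ℕ∞} {f : ℕ →₀ ℝ} (hf : IsW r f) (hfy : c ≤ pr f y) :
    (∃ (r' : ℕ∞) (g : ℕ →₀ ℝ), IsW r' g ∧ (S : ℕ∞) ≤ r' ∧ c ≤ pr g y) ∨
      ∃ (r' : ℕ∞) (g : ℕ →₀ ℝ), IsW r' g ∧ (m : ℕ∞) ≤ r' ∧ c / (L S : ℝ) ≤ pr g y := by
  classical
  induction hf with
  | basis i s hs => exact Or.inl ⟨⊤, _, IsW.basis i s hs, le_top, hfy⟩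
  | comp R A hA f ind hf hs ih =>
    by_cases hSR : S ≤ R
    · exact Or.inl ⟨(R : ℕ∞), _, IsW.comp R A hA f ind hf hs, by exact_mod_cast hSR, hfy⟩
    have hRS : R ≤ S := le_of_lt (not_le.1 hSR)
    rw [pr_smul_left, pr_sum_left] at hfy
    have hw := w_pos R
    have hw2 := w_le_half R
    have hsum : 2 * c ≤ ∑ j ∈ A, pr (f j) y := by
      by_contra hlt
      push Not at hlt
      have hpos : 0 < ∑ j ∈ A, pr (f j) y := by
        by_contra hneg
        push Not at hneg
        have := mul_nonpos_of_nonneg_of_nonpos hw.le hneg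
        linarith
      have h1 : w R * ∑ j ∈ A, pr (f j) y ≤ 1 / 2 * ∑ j ∈ A, pr (f j) y :=
        mul_le_mul_of_nonneg_right hw2 hpos.le
      linarith
    set A' := A.filter (fun j => ∃ p ∈ (f j).support, m ≤ p) with hA'
    have hzero : ∀ j ∈ A, j ∉ A' → pr (f j) y = 0 := by
      intro j hj hj'
      apply pr_eq_zero
      intro p hp
      by_contra hne
      exact hj' (Finset.mem_filter.2 ⟨hj, p, hp, hm p hne⟩)
    have hne : A'.Nonempty := by
      by_contra hem
      rw [Finset.not_nonempty_iff_eq_empty] at hem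
      have : ∑ j ∈ A, pr (f j) y = 0 := by
        apply Finset.sum_eq_zero
        intro j hj
        exact hzero j hj (by rw [hem]; simp)
      linarith
    set j0 := A'.min' hne with hj0
    have hj0A' : j0 ∈ A' := Finset.min'_mem _ _
    have hj0A : j0 ∈ A := (Finset.mem_filter.1 hj0A').1
    obtain ⟨p, hp, hmp⟩ := (Finset.mem_filter.1 hj0A').2
    by_cases hbig : c ≤ pr (f j0) y
    · exact ih j0 hj0A hbig
    push Not at hbig
    set B := A.filter (fun j => j0 < j) with hB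
    have hsplit : ∑ j ∈ A, pr (f j) y = pr (f j0) y + ∑ j ∈ B, pr (f j) y := by
      rw [← Finset.add_sum_erase A _ hj0A]
      congr 1
      symm
      apply Finset.sum_subset_zero_on_sdiff
      · intro j hj
        rw [hB, Finset.mem_filter] at hj
        exact Finset.mem_erase.2 ⟨hj.2.ne', hj.1⟩
      · intro j hj
        rw [Finset.mem_sdiff, Finset.mem_erase] at hj
        obtain ⟨⟨h1, h2⟩, h3⟩ := hj
        have h4 : ¬ j0 < j := fun h => h3 (Finset.mem_filter.2 ⟨h2, h⟩)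
        have h5 : j < j0 := lt_of_le_of_ne (not_lt.1 h4) h1
        apply hzero j h2
        intro h6
        exact absurd (Finset.min'_le A' j h6) (not_le.2 h5)
      · intro j _
        rfl
    have hBsum : c < ∑ j ∈ B, pr (f j) y := by linarith
    have hLS : (0 : ℝ) < (L S : ℝ) := L_pos' S
    have hBcard : (B.card : ℝ) ≤ (L S : ℝ) := by
      have h1 : B.card ≤ L R := (Finset.card_filter_le _ _).trans hA
      exact_mod_cast h1.trans (L_mono hRS)
    obtain ⟨j, hjB, hj⟩ : ∃ j ∈ B, c / (L S : ℝ) ≤ pr (f j) y := by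
      by_contra hcon
      push Not at hcon
      have h1 : ∑ j ∈ B, pr (f j) y ≤ ∑ _j ∈ B, c / (L S : ℝ) :=
        Finset.sum_le_sum fun j hj => (hcon j hj).le
      rw [Finset.sum_const, nsmul_eq_mul] at h1
      have h2 : (B.card : ℝ) * (c / (L S : ℝ)) ≤ (L S : ℝ) * (c / (L S : ℝ)) :=
        mul_le_mul_of_nonneg_right hBcard (by positivity)
      have h3 : (L S : ℝ) * (c / (L S : ℝ)) = c := by field_simp
      linarith
    rw [hB, Finset.mem_filter] at hjB
    refine Or.inr ⟨ind j, f j, hf j hjB.1, ?_, hj⟩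
    have h7 := (hs j0 hj0A j hjB.1 hjB.2 p hp).2
    have h8 : (m : ℕ∞) ≤ (p : ℕ∞) := by exact_mod_cast hmp
    exact h8.trans h7.le

end USM
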