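import Pool.Agent.Helper51.USM.Basic

/-! # Elementary numerical facts -/

namespace USM

theorem num_w_sq {n s : ℕ} (h : n + 1 ≤ s) : (n : ℝ) ^ 2 * w s ≤ 1 := by
  have key : n ^ 2 * (s + 1) ≤ L s := by
    unfold L
    have h0 : n ^ 2 * (s + 1) ≤ s ^ 3 := by
      obtain ⟨m, rfl⟩ : ∃ m, s = m + n + 1 := ⟨s - n - 1, by omega⟩
      have h1 : (m + n + 1) ^ 3 = n ^ 2 * (m + n + 1 + 1) +
          (m ^ 3 + 3 * m ^ 2 * n + 3 * m ^ 2 + 2 * m * n ^ 2 + 6 * m * n + 3 * m + n ^ 2 +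
            3 * n + 1) := by ring
      omega
    refine h0.trans ?_
    rcases Nat.lt_or_ge s 4 with h4 | h4
    · interval_cases s <;> norm_num
    · have h6 : ∀ j : ℕ, 4 ≤ j → 3 * j ≤ 2 ^ j := by
        intro j hj
        induction j, hj using Nat.le_induction with
        | base => norm_num
        | succ i hi ihi => rw [pow_succ]; omega
      have h3 : 3 * s ≤ 2 ^ s := h6 s h4
      calc s ^ 3 ≤ (2 ^ s) ^ 3 := Nat.pow_le_pow_left (Nat.lt_two_pow_self).le 3
        _ = 2 ^ (3 * s) := by rw [← pow_mul, mul_comm]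
        _ ≤ 2 ^ (2 ^ s) := Nat.pow_le_pow_right (by norm_num) h3
  have key' : (n : ℝ) ^ 2 * ((s : ℝ) + 1) ≤ (L s : ℝ) := by exact_mod_cast key
  unfold w
  rw [← mul_div_assoc, div_le_one (L_pos' s)]
  exact key'

theorem num_le_L {n s : ℕ} (h : n + 1 ≤ s) : n ≤ L (s - 1) := by
  unfold L
  have h1 : s - 1 < 2 ^ (s - 1) := Nat.lt_two_pow_self
  have h2 : 2 ^ (s - 1) < 2 ^ (2 ^ (s - 1)) := Nat.lt_two_pow_self
  omega

theorem numB {ι : Type} [Fintype ι] (R : ℕ) (a : ι → ℝ) (E : ℝ) (ha : ∀ i, 0 ≤ a i)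
    (haE : ∀ i, a i ≤ E)
    (hP : ∀ (r : ℕ) (B : Finset ι), B.card ≤ L r → w r * ∑ i ∈ B, a i ≤ E)
    (k : ι → ℕ) (hk : ∑ i, k i ≤ L R) (V : ι → ℝ) (hV : ∀ i, V i ≤ (k i : ℝ))
    (hV' : ∀ i (t : ℕ), V i ≤ ((k i : ℝ) + (L t : ℝ)) / ((t : ℝ) + 1)) :
    w R * ∑ i, a i * V i ≤ 8 * E := by
  classical
  have hE : 0 ≤ E := by
    have := hP 0 ∅ (by simp)
    simpa using this
  have hkR : ∑ i, (k i : ℝ) ≤ (L R : ℝ) := by exact_mod_cast hk
  have hsub : ∀ B : Finset ι, ∑ i ∈ B, (k i : ℝ) ≤ (L R : ℝ) := fun B =>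
    (Finset.sum_le_sum_of_subset_of_nonneg (Finset.subset_univ B)
      fun i _ _ => Nat.cast_nonneg _).trans hkR
  have hwR := w_pos R
  cases R with
  | zero =>
    have h1 : ∑ i, a i * V i ≤ E * ∑ i, (k i : ℝ) := by
      rw [Finset.mul_sum]
      refine Finset.sum_le_sum fun i _ => ?_
      calc a i * V i ≤ a i * (k i : ℝ) := mul_le_mul_of_nonneg_left (hV i) (ha i)
        _ ≤ E * (k i : ℝ) := mul_le_mul_of_nonneg_right (haE i) (Nat.cast_nonneg _)
    calc w 0 * ∑ i, a i * V i ≤ w 0 * (E * ∑ i, (k i : ℝ)) := mul_le_mul_of_nonneg_left h1 hwR.le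
      _ ≤ w 0 * (E * (L 0 : ℝ)) :=
        mul_le_mul_of_nonneg_left (mul_le_mul_of_nonneg_left hkR hE) hwR.le
      _ = E * (w 0 * (L 0 : ℝ)) := by ring
      _ = E := by rw [w_mul_L]; push_cast; ring
      _ ≤ 8 * E := by linarith
  | succ t =>
    have hl : (0 : ℝ) < (t : ℝ) + 1 := by positivity
    have hLt := L_pos' t
    have hratio : ((t : ℝ) + 2) / ((t : ℝ) + 1) ≤ 2 := by
      rw [div_le_iff₀ hl]; nlinarith [(Nat.cast_nonneg t : (0 : ℝ) ≤ t)]
    have hwL : w (t + 1) * (L (t + 1) : ℝ) = (t : ℝ) + 2 := by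
      rw [w_mul_L]; push_cast; ring
    set Bg : Finset ι := Finset.univ.filter (fun i => L t ≤ k i) with hBg
    set T : Finset ι := Finset.univ.filter (fun i => ¬ L t ≤ k i ∧ E / ((t : ℝ) + 1) < a i) with hT
    set S : Finset ι := Finset.univ.filter (fun i => ¬ L t ≤ k i ∧ ¬ E / ((t : ℝ) + 1) < a i) with hS
    have hsplit : ∑ i, a i * V i = ∑ i ∈ Bg, a i * V i + (∑ i ∈ T, a i * V i + ∑ i ∈ S, a i * V i) := by
      rw [← Finset.sum_filter_add_sum_filter_not Finset.univ (fun i => L t ≤ k i)]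
      congr 1
      rw [← Finset.sum_filter_add_sum_filter_not
        (Finset.univ.filter (fun i => ¬ L t ≤ k i)) (fun i => E / ((t : ℝ) + 1) < a i),
        Finset.filter_filter, Finset.filter_filter]
    -- big indices
    have hbig : w (t + 1) * ∑ i ∈ Bg, a i * V i ≤ 4 * E := by
      have h1 : ∑ i ∈ Bg, a i * V i ≤ (2 * E / ((t : ℝ) + 1)) * ∑ i ∈ Bg, (k i : ℝ) := by
        rw [Finset.mul_sum]
        refine Finset.sum_le_sum fun i hi => ?_
        have hi' : (L t : ℝ) ≤ (k i : ℝ) := by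
          have := (Finset.mem_filter.1 hi).2
          exact_mod_cast this
        have h2 : V i ≤ 2 * (k i : ℝ) / ((t : ℝ) + 1) :=
          (hV' i t).trans (by gcongr; linarith)
        have h3 : (0 : ℝ) ≤ 2 * (k i : ℝ) / ((t : ℝ) + 1) := by positivity
        calc a i * V i ≤ a i * (2 * (k i : ℝ) / ((t : ℝ) + 1)) :=
              mul_le_mul_of_nonneg_left h2 (ha i)
          _ ≤ E * (2 * (k i : ℝ) / ((t : ℝ) + 1)) := mul_le_mul_of_nonneg_right (haE i) h3
          _ = (2 * E / ((t : ℝ) + 1)) * (k i : ℝ) := by ring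
      have h4 : (0 : ℝ) ≤ 2 * E / ((t : ℝ) + 1) := by positivity
      calc w (t + 1) * ∑ i ∈ Bg, a i * V i
          ≤ w (t + 1) * ((2 * E / ((t : ℝ) + 1)) * ∑ i ∈ Bg, (k i : ℝ)) :=
            mul_le_mul_of_nonneg_left h1 hwR.le
        _ ≤ w (t + 1) * ((2 * E / ((t : ℝ) + 1)) * (L (t + 1) : ℝ)) :=
            mul_le_mul_of_nonneg_left (mul_le_mul_of_nonneg_left (hsub Bg) h4) hwR.le
        _ = 2 * E / ((t : ℝ) + 1) * (w (t + 1) * (L (t + 1) : ℝ)) := by ring
        _ = 2 * E * (((t : ℝ) + 2) / ((t : ℝ) + 1)) := by rw [hwL]; ring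
        _ ≤ 2 * E * 2 := mul_le_mul_of_nonneg_left hratio (by linarith)
        _ = 4 * E := by ring
    -- the small indices with large coefficient
    have hTcard : T.card ≤ L t := by
      by_contra hcon
      obtain ⟨B, hB, hBc⟩ := Finset.exists_subset_card_eq (show L t ≤ T.card by omega)
      have h1 := hP t B hBc.le
      have h2 : ∑ i ∈ B, (E / ((t : ℝ) + 1)) < ∑ i ∈ B, a i := by
        refine Finset.sum_lt_sum_of_nonempty ?_ fun i hi => ?_
        · rw [← Finset.card_pos, hBc]; exact L_pos t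
        · exact (Finset.mem_filter.1 (hB hi)).2.2
      rw [Finset.sum_const, hBc, nsmul_eq_mul] at h2
      have h3 : w t * ((L t : ℝ) * (E / ((t : ℝ) + 1))) < w t * ∑ i ∈ B, a i :=
        mul_lt_mul_of_pos_left h2 (w_pos t)
      have h4 : w t * ((L t : ℝ) * (E / ((t : ℝ) + 1))) = E := by
        rw [← mul_assoc, w_mul_L]; field_simp
      linarith
    have hTsum : w (t + 1) * ∑ i ∈ T, a i * V i ≤ 2 * E := by
      have h1 : ∑ i ∈ T, a i * V i ≤ (L t : ℝ) * ∑ i ∈ T, a i := by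
        rw [Finset.mul_sum]
        refine Finset.sum_le_sum fun i hi => ?_
        have hi' : (k i : ℝ) ≤ (L t : ℝ) := by
          have h5 := (Finset.mem_filter.1 hi).2.1
          have h6 : k i ≤ L t := by omega
          exact_mod_cast h6
        calc a i * V i ≤ a i * (L t : ℝ) := mul_le_mul_of_nonneg_left ((hV i).trans hi') (ha i)
          _ = (L t : ℝ) * a i := mul_comm _ _
      have h2 : w (t + 1) * (L t : ℝ) ≤ 2 * w t := by
        have h3 : w (t + 1) * (L t : ℝ) = (((t : ℝ) + 2) / ((t : ℝ) + 1)) * w t := by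
          unfold w
          rw [L_succ]
          push_cast
          field_simp
          ring
        rw [h3]
        exact mul_le_mul_of_nonneg_right hratio (w_pos t).le
      have h4 : (0 : ℝ) ≤ ∑ i ∈ T, a i := Finset.sum_nonneg fun i _ => ha i
      calc w (t + 1) * ∑ i ∈ T, a i * V i ≤ w (t + 1) * ((L t : ℝ) * ∑ i ∈ T, a i) :=
            mul_le_mul_of_nonneg_left h1 hwR.le
        _ = (w (t + 1) * (L t : ℝ)) * ∑ i ∈ T, a i := by ring
        _ ≤ (2 * w t) * ∑ i ∈ T, a i := mul_le_mul_of_nonneg_right h2 h4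
        _ = 2 * (w t * ∑ i ∈ T, a i) := by ring
        _ ≤ 2 * E := by linarith [hP t T hTcard]
    have hSsum : w (t + 1) * ∑ i ∈ S, a i * V i ≤ 2 * E := by
      have h0 : (0 : ℝ) ≤ E / ((t : ℝ) + 1) := by positivity
      have h1 : ∑ i ∈ S, a i * V i ≤ (E / ((t : ℝ) + 1)) * ∑ i ∈ S, (k i : ℝ) := by
        rw [Finset.mul_sum]
        refine Finset.sum_le_sum fun i hi => ?_
        have h5 : a i ≤ E / ((t : ℝ) + 1) := not_lt.1 (Finset.mem_filter.1 hi).2.2
        calc a i * V i ≤ a i * (k i : ℝ) := mul_le_mul_of_nonneg_left (hV i) (ha i)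
          _ ≤ (E / ((t : ℝ) + 1)) * (k i : ℝ) := mul_le_mul_of_nonneg_right h5 (Nat.cast_nonneg _)
      calc w (t + 1) * ∑ i ∈ S, a i * V i
          ≤ w (t + 1) * ((E / ((t : ℝ) + 1)) * ∑ i ∈ S, (k i : ℝ)) :=
            mul_le_mul_of_nonneg_left h1 hwR.le
        _ ≤ w (t + 1) * ((E / ((t : ℝ) + 1)) * (L (t + 1) : ℝ)) :=
            mul_le_mul_of_nonneg_left (mul_le_mul_of_nonneg_left (hsub S) h0) hwR.le
        _ = E / ((t : ℝ) + 1) * (w (t + 1) * (L (t + 1) : ℝ)) := by ring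
        _ = E * (((t : ℝ) + 2) / ((t : ℝ) + 1)) := by rw [hwL]; ring
        _ ≤ E * 2 := mul_le_mul_of_nonneg_left hratio hE
        _ = 2 * E := by ring
    rw [hsplit, mul_add, mul_add]
    linarith

end USM
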