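import Pool.Agent.Helper51.USM.LARGE

/-! # The upper estimate -/

namespace USM

open Filter Topology

theorem top_meet_single {n : ℕ} {y : Fin n → ℕ → ℝ} (hy : Succ y) (i : ℕ) (s : ℝ) :
    (meet y (Finsupp.single i s)).card ≤ 1 := by
  rw [Finset.card_le_one]
  intro u hu v hv
  rw [mem_meet] at hu hv
  obtain ⟨p, hp, hup⟩ := hu
  obtain ⟨q, hq, hvq⟩ := hv
  have hpi : p = i := by
    have := Finsupp.support_single_subset hp
    simpa using this
  have hqi : q = i := by
    have := Finsupp.support_single_subset hq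
    simpa using this
  subst hpi
  subst hqi
  by_contra hne
  rcases lt_or_gt_of_ne hne with hlt | hlt
  · exact lt_irrefl _ (hy u v hlt _ _ hup hvq)
  · exact lt_irrefl _ (hy v u hlt _ _ hvq hup)

theorem upper_step {n : ℕ} {y : Fin n → ℕ → ℝ} (hy : Succ y) (hN : ∀ i, NB (y i) 1)
    (hM : ∀ i p, y i p ≠ 0 → n + 1 ≤ p) (a : Fin n → ℝ) (ha : ∀ i, 0 ≤ a i) (E : ℝ)
    (hE : PB a E) (T : ℝ) (hT : NB (∑ i, a i • y i) T) :
    NB (∑ i, a i • y i) (T / 2 + 18 * E) := by
  have hE0 : 0 ≤ E := by
    have := hE.2 0 ∅ (by simp)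
    simpa using this
  have hT0 : 0 ≤ T := hT.nonneg
  have haE : ∀ i, a i ≤ E := fun i => (le_abs_self _).trans (hE.1 i)
  have hP : ∀ (r : ℕ) (B : Finset (Fin n)), B.card ≤ L r → w r * ∑ i ∈ B, a i ≤ E := by
    intro r B hB
    have := hE.2 r B hB
    rw [Finset.sum_congr rfl (fun i _ => abs_of_nonneg (ha i))] at this
    exact this
  intro r f hf
  rcases hf.cases' with ⟨_, i, s, hs, rfl⟩ | ⟨R, A, g, ind, rfl, hA, hc, rfl⟩
  · -- a coordinate functional
    rw [pr_meet]
    have hcard := top_meet_single hy i s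
    have hle : ∑ l ∈ meet y (Finsupp.single i s), a l * pr (Finsupp.single i s) (y l) ≤
        ∑ l ∈ meet y (Finsupp.single i s), E := by
      refine Finset.sum_le_sum fun l _ => ?_
      have h1 : pr (Finsupp.single i s) (y l) ≤ 1 := hN l _ _ (IsW.basis i s hs)
      calc a l * pr (Finsupp.single i s) (y l) ≤ a l * 1 :=
            mul_le_mul_of_nonneg_left h1 (ha l)
        _ ≤ E := by rw [mul_one]; exact haE l
    rw [Finset.sum_const, nsmul_eq_mul] at hle
    have h2 : ((meet y (Finsupp.single i s)).card : ℝ) ≤ 1 := by exact_mod_cast hcard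
    have h3 : ((meet y (Finsupp.single i s)).card : ℝ) * E ≤ 1 * E :=
      mul_le_mul_of_nonneg_right h2 hE0
    linarith
  · -- a compound functional
    rw [pr_smul_left, pr_sum_left]
    obtain ⟨k, V, hk, hV, hV', -, hdec⟩ := decomp hN a hc
    rw [hdec, mul_add]
    have hpart1 : w R * ∑ i, a i * V i ≤ 8 * E :=
      numB R a E ha haE hP k (hk.trans hA) V hV hV'
    have hpart2 : w R * ∑ j ∈ A.filter (fun j => 2 ≤ (meet y (g j)).card),
        pr (g j) (∑ i, a i • y i) ≤ T / 2 + 10 * E := by
      set K := A.filter (fun j => 2 ≤ (meet y (g j)).card) with hKdef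
      rcases K.eq_empty_or_nonempty with hKe | ⟨j1, hj1⟩
      · rw [hKe, Finset.sum_empty, mul_zero]
        positivity
      have hKmem : ∀ j ∈ K, j ∈ A ∧ 2 ≤ (meet y (g j)).card := by
        intro j hj
        rw [hKdef, Finset.mem_filter] at hj
        exact hj
      have hne : ∀ j ∈ K, (meet y (g j)).Nonempty := by
        intro j hj
        rw [← Finset.card_pos]
        have := (hKmem j hj).2
        omega
      obtain ⟨i1, -⟩ := hne j1 hj1
      -- the maximizing choice
      have hchoice : ∀ j, ∃ i : Fin n, j ∈ K →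
          (i ∈ meet y (g j) ∧ ∀ i' ∈ meet y (g j), a i' ≤ a i) := by
        intro j
        by_cases hj : j ∈ K
        · obtain ⟨i, hi, himax⟩ := Finset.exists_max_image (meet y (g j)) a (hne j hj)
          exact ⟨i, fun _ => ⟨hi, himax⟩⟩
        · exact ⟨i1, fun h => absurd h hj⟩
      choose c hc' using hchoice
      -- the first member that meets a vector
      let A' := A.filter (fun j => (meet y (g j)).Nonempty)
      have hA'ne : A'.Nonempty :=
        ⟨j1, Finset.mem_filter.2 ⟨(hKmem j1 hj1).1, hne j1 hj1⟩⟩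
      obtain ⟨j0, hj0, hj0min⟩ := Finset.exists_min_image A' id hA'ne
      have hj0A : j0 ∈ A := (Finset.mem_filter.1 hj0).1
      obtain ⟨i0, hi0⟩ := (Finset.mem_filter.1 hj0).2
      obtain ⟨p, hp, hip⟩ := mem_meet.1 hi0
      have hpn : n + 1 ≤ p := hM i0 p hip
      have hother : ∀ j ∈ K, j ≠ j0 → pr (g j) (∑ i, a i • y i) ≤ 5 * a (c j) := by
        intro j hj hjj0
        have hjA := (hKmem j hj).1
        have hle : j0 ≤ j := hj0min j (Finset.mem_filter.2 ⟨hjA, hne j hj⟩)
        have hlt : j0 < j := lt_of_le_of_ne hle (Ne.symm hjj0)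
        have hgrow := hc.grow j0 hj0A j hjA hlt p hp
        have hmem := hc.mem j hjA
        rcases hmem.cases' with ⟨_, q, s, _, hg⟩ | ⟨s, _, _, _, hs, _, _, _⟩
        · exfalso
          have h1 := top_meet_single hy q s
          have h2 := (hKmem j hj).2
          rw [hg] at h2
          omega
        · rw [hs] at hgrow hmem
          have hps : p < s := by exact_mod_cast hgrow
          exact large_index hy hN a ha (by omega) hmem (a (c j)) (ha _) (hc' j hj).2
      have hsumK : ∑ j ∈ K, a (c j) ≤ 2 * (E / w R) := by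
        refine sum_K hy a ha hc (L R) hA (E / w R) ?_ c ?_
        · intro J hJ
          rw [le_div_iff₀ (w_pos R), mul_comm]
          exact hP R J hJ
        · intro j hj
          exact (hc' j hj).1
      have hbound : ∑ j ∈ K, pr (g j) (∑ i, a i • y i) ≤ T + 5 * ∑ j ∈ K, a (c j) := by
        have h1 : ∀ j ∈ K, pr (g j) (∑ i, a i • y i) ≤
            (if j = j0 then T else 0) + 5 * a (c j) := by
          intro j hj
          by_cases hjj : j = j0
          · rw [if_pos hjj]
            have h2 : pr (g j) (∑ i, a i • y i) ≤ T := hT _ _ (hc.mem j (hKmem j hj).1)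
            have h3 := ha (c j)
            linarith
          · rw [if_neg hjj, zero_add]
            exact hother j hj hjj
        refine (Finset.sum_le_sum h1).trans ?_
        rw [Finset.sum_add_distrib, ← Finset.mul_sum, Finset.sum_ite_eq']
        split_ifs <;> linarith
      calc w R * ∑ j ∈ K, pr (g j) (∑ i, a i • y i)
          ≤ w R * (T + 5 * (2 * (E / w R))) := by
            refine mul_le_mul_of_nonneg_left ?_ (w_pos R).le
            linarith
        _ = w R * T + 10 * E := by
            have := (w_pos R).ne'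
            field_simp
            ring
        _ ≤ T / 2 + 10 * E := by
            have := mul_le_mul_of_nonneg_right (w_le_half R) hT0
            linarith
    linarith

/-- Upper estimate: `n` successive vectors beyond `n + 1` are dominated by the model norm. -/
theorem upper {n : ℕ} {y : Fin n → ℕ → ℝ} (hy : Succ y) (hN : ∀ i, NB (y i) 1)
    (hM : ∀ i p, y i p ≠ 0 → n + 1 ≤ p) (a : Fin n → ℝ) (E : ℝ) (hE : PB a E) :
    NB (∑ i, a i • y i) (36 * E) := by
  classical
  let y' : Fin n → ℕ → ℝ := fun i => if a i < 0 then -y i else y i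
  let a' : Fin n → ℝ := fun i => |a i|
  have hsupp : ∀ i p, y' i p ≠ 0 → y i p ≠ 0 := by
    intro i p h
    simp only [y'] at h
    split_ifs at h
    · intro h0
      apply h
      rw [Pi.neg_apply, h0, neg_zero]
    · exact h
  have hsum : ∑ i, a i • y i = ∑ i, a' i • y' i := by
    refine Finset.sum_congr rfl fun i _ => ?_
    simp only [a', y']
    split_ifs with h
    · rw [abs_of_neg h, smul_neg, neg_smul, neg_neg]
    · rw [abs_of_nonneg (not_lt.1 h)]
  have hy' : Succ y' := fun i j hij p q hp hq => hy i j hij p q (hsupp i p hp) (hsupp j q hq)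
  have hN' : ∀ i, NB (y' i) 1 := by
    intro i
    simp only [y']
    split_ifs
    · exact (hN i).neg
    · exact hN i
  have hM' : ∀ i p, y' i p ≠ 0 → n + 1 ≤ p := fun i p h => hM i p (hsupp i p h)
  have ha' : ∀ i, 0 ≤ a' i := fun i => abs_nonneg _
  have hE' : PB a' E := by
    refine ⟨fun i => ?_, fun r B hB => ?_⟩
    · simp only [a', abs_abs]
      exact hE.1 i
    · simp only [a', abs_abs]
      exact hE.2 r B hB
  rw [hsum]
  set T : ℝ := ∑ i, a' i with hTdef
  have hT : NB (∑ i, a' i • y' i) T := by
    refine NB.sum Finset.univ fun i _ => ?_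
    have := (hN' i).smul (a' i)
    rwa [mul_one, abs_of_nonneg (ha' i)] at this
  have hiter : ∀ k : ℕ, NB (∑ i, a' i • y' i) (36 * E + (T - 36 * E) * (1 / 2) ^ k) := by
    intro k
    induction k with
    | zero =>
      refine hT.mono ?_
      rw [pow_zero]
      linarith
    | succ k ih =>
      have := upper_step hy' hN' hM' a' ha' E hE' _ ih
      refine this.mono ?_
      rw [pow_succ]
      linarith
  intro r f hf
  have hlim : Tendsto (fun k : ℕ => 36 * E + (T - 36 * E) * (1 / 2 : ℝ) ^ k) atTop
      (𝓝 (36 * E + (T - 36 * E) * 0)) := by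
    refine Tendsto.const_add _ (Tendsto.const_mul _ ?_)
    exact tendsto_pow_atTop_nhds_zero_of_lt_one (by norm_num) (by norm_num)
  rw [mul_zero, add_zero] at hlim
  exact ge_of_tendsto' hlim fun k => hiter k r f hf

end USM
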