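import Pool.Agent.Helper51.USM.XSP
import Pool.Agent.Helper51.USM.TOP
import Pool.Agent.Helper51.USM.ONES

/-! # The basis is shrinking -/

namespace USM

open Filter Topology

theorem shr_blk_sub (z : ℕ → ℝ) {m n : ℕ} (h : m ≤ n) :
    blk z 0 n - blk z 0 m = blk z m n := by
  unfold blk
  rw [sub_eq_iff_eq_add, add_comm]
  exact (Finset.sum_Ico_consecutive _ (Nat.zero_le m) h).symm

theorem shr_step (g : XS →L[ℝ] ℝ) (ε : ℝ) (M : ℕ)
    (h : ∃ x : XS, ε * ‖x‖ < |g (x - blk (co x) 0 M)|) :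
    ∃ (N : ℕ) (y : XS), M ≤ N ∧ NB (co y) 1 ∧ (∀ p, co y p ≠ 0 → M ≤ p ∧ p < N) ∧ ε ≤ g y := by
  obtain ⟨x, hx⟩ := h
  have hx0 : 0 < ‖x‖ := by
    rcases (norm_nonneg x).eq_or_lt with h0 | h0
    · exfalso
      have hx' : x = 0 := norm_eq_zero.1 h0.symm
      subst hx'
      have hb : blk (co (0 : XS)) 0 M = 0 := by
        unfold blk
        refine Finset.sum_eq_zero fun i _ => ?_
        rw [co_zero]
        simp
      rw [hb] at hx
      simp at hx
    · exact h0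
  have hlim : Tendsto (fun n => |g (blk (co x) 0 n - blk (co x) 0 M)|) atTop
      (𝓝 |g (x - blk (co x) 0 M)|) := by
    refine Tendsto.abs ?_
    exact (g.continuous.tendsto _).comp ((tendsto_blk x).sub_const _)
  have hev := (hlim.eventually (lt_mem_nhds hx)).and (eventually_ge_atTop M)
  obtain ⟨N, hN, hMN⟩ := hev.exists
  rw [shr_blk_sub _ hMN] at hN
  -- sign
  obtain ⟨s, hs, hsg⟩ : ∃ s : ℝ, |s| = 1 ∧ s * g (blk (co x) M N) = |g (blk (co x) M N)| := by
    rcases le_total 0 (g (blk (co x) M N)) with h0 | h0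
    · exact ⟨1, by simp, by rw [abs_of_nonneg h0, one_mul]⟩
    · exact ⟨-1, by simp, by rw [abs_of_nonpos h0]; ring⟩
  refine ⟨N, (s / ‖x‖) • blk (co x) M N, hMN, ?_, ?_, ?_⟩
  · rw [← norm_le_iff _ zero_le_one, norm_smul, Real.norm_eq_abs, abs_div, hs, abs_norm]
    calc 1 / ‖x‖ * ‖blk (co x) M N‖ ≤ 1 / ‖x‖ * ‖x‖ :=
          mul_le_mul_of_nonneg_left (norm_blk_le x M N) (by positivity)
      _ = 1 := by field_simp
  · intro p hp
    rw [co_smul, co_blk] at hp
    by_contra hcon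
    apply hp
    simp [hcon]
  · rw [map_smul, smul_eq_mul, div_mul_eq_mul_div, hsg, le_div_iff₀ hx0]
    exact hN.le

theorem shrinking (g : XS →L[ℝ] ℝ) (ε : ℝ) (hε : 0 < ε) :
    ∃ m : ℕ, ∀ x : XS, |g (x - blk (co x) 0 m)| ≤ ε * ‖x‖ := by
  by_contra hcon
  push Not at hcon
  have hstep := fun M => shr_step g ε M (hcon M)
  choose N y hMN hNB hsup hg using hstep
  obtain ⟨r, hr⟩ := exists_root_gt 1 one_pos (36 * ‖g‖ / ε)
  rw [div_one, Real.rpow_one] at hr
  set n := L r with hn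
  let Mf : ℕ → ℕ := fun k => Nat.rec (n + 1) (fun _ m => N m) k
  have hM0 : Mf 0 = n + 1 := rfl
  have hMs : ∀ k, Mf (k + 1) = N (Mf k) := fun k => rfl
  have hmono : Monotone Mf := monotone_nat_of_le_succ fun k => by
    rw [hMs]; exact hMN _
  have hsucc : Succ (fun i : Fin n => co (y (Mf i))) := by
    intro i j hij p q hp hq
    have h1 := (hsup _ p hp).2
    have h2 := (hsup _ q hq).1
    have h3 : Mf ((i : ℕ) + 1) ≤ Mf j := hmono hij
    rw [hMs] at h3
    omega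
  have hup := upper hsucc (fun i => hNB _) (fun i p hp => by
    have h1 := (hsup _ p hp).1
    have h2 : Mf 0 ≤ Mf i := hmono (Nat.zero_le _)
    rw [hM0] at h2
    omega) (fun _ : Fin n => (1 : ℝ)) ((r : ℝ) + 1) (PB_ones r)
  have hco : (∑ i : Fin n, (1 : ℝ) • co (y (Mf i))) = co (∑ i : Fin n, y (Mf i)) := by
    rw [co_sum]
    exact Finset.sum_congr rfl fun i _ => one_smul _ _
  rw [hco, ← norm_le_iff _ (by positivity)] at hup
  have h1 : (n : ℝ) * ε ≤ g (∑ i : Fin n, y (Mf i)) := by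
    rw [map_sum]
    calc (n : ℝ) * ε = ∑ _i : Fin n, ε := by simp
      _ ≤ _ := Finset.sum_le_sum fun i _ => hg _
  have h2 : g (∑ i : Fin n, y (Mf i)) ≤ ‖g‖ * (36 * ((r : ℝ) + 1)) :=
    (le_abs_self _).trans ((g.le_opNorm _).trans
      (mul_le_mul_of_nonneg_left hup g.opNorm_nonneg))
  rw [div_mul_eq_mul_div, div_lt_iff₀ hε] at hr
  linarith

end USM
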