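import Pool.Agent.Helper51.USM.BC
import Pool.Agent.Helper51.USM.SHR

/-! # The space is reflexive -/

namespace USM

open Filter Topology

/-- A continuous functional on a finite block. -/
theorem refl_apply_blk (g : XS →L[ℝ] ℝ) (z : ℕ → ℝ) (m n : ℕ) :
    g (blk z m n) = ∑ i ∈ Finset.Ico m n, z i * g (e i) := by
  unfold blk
  rw [map_sum]
  exact Finset.sum_congr rfl fun i _ => by rw [map_smul, smul_eq_mul]

/-- The operator norm of a finitely supported functional of the norming set is at most one. -/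
theorem refl_norm_le (f : ℕ →₀ ℝ) (r : ℕ∞) (hf : IsW r f) :
    ‖∑ i ∈ f.support, f i • coL i‖ ≤ 1 := by
  refine ContinuousLinearMap.opNorm_le_bound _ zero_le_one fun x => ?_
  have h1 : (∑ i ∈ f.support, f i • coL i) x = pr f (co x) := by
    rw [_root_.sum_apply, pr_eq_sum]
    rfl
  rw [h1, Real.norm_eq_abs, one_mul]
  exact (NB_norm x).abs_le hf

theorem reflexive (φ : (XS →L[ℝ] ℝ) →L[ℝ] ℝ) : ∃ x : XS, ∀ f : XS →L[ℝ] ℝ, φ f = f x := by
  set z : ℕ → ℝ := fun i => φ (coL i) with hz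
  have hbd : ∀ n, ‖blk z 0 n‖ ≤ ‖φ‖ := by
    intro n
    refine (norm_le_iff _ (norm_nonneg φ)).2 ?_
    intro r f hf
    rw [co_blk]
    have e1 : pr f (fun i => if 0 ≤ i ∧ i < n then z i else 0) =
        pr (f.filter fun i => 0 ≤ i ∧ i < n) z := (pr_filter f _ z).symm
    rw [e1]
    set g := f.filter fun i => 0 ≤ i ∧ i < n with hg
    have hg' : IsW r g := hf.filter _
    have h1 : pr g z = φ (∑ i ∈ g.support, g i • coL i) := by
      rw [map_sum, pr_eq_sum]
      exact Finset.sum_congr rfl fun i _ => by rw [map_smul, smul_eq_mul]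
    rw [h1]
    calc φ (∑ i ∈ g.support, g i • coL i) ≤ ‖φ (∑ i ∈ g.support, g i • coL i)‖ := le_abs_self _
      _ ≤ ‖φ‖ * ‖∑ i ∈ g.support, g i • coL i‖ := φ.le_opNorm _
      _ ≤ ‖φ‖ * 1 := mul_le_mul_of_nonneg_left (refl_norm_le g r hg') (norm_nonneg φ)
      _ = ‖φ‖ := mul_one _
  obtain ⟨x, hx⟩ := bdd_complete z ‖φ‖ hbd
  refine ⟨x, fun f => ?_⟩
  -- `φ (f ∘ P_n) = f (blk z 0 n)`
  set F : ℕ → (XS →L[ℝ] ℝ) := fun n => ∑ i ∈ Finset.Ico 0 n, f (e i) • coL i with hF
  have h1 : ∀ n, φ (F n) = f (blk z 0 n) := by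
    intro n
    rw [hF, map_sum, refl_apply_blk]
    exact Finset.sum_congr rfl fun i _ => by rw [map_smul, smul_eq_mul, mul_comm]
  have h2 : ∀ n x, F n x = f (blk (co x) 0 n) := by
    intro n x
    rw [hF, refl_apply_blk, _root_.sum_apply]
    refine Finset.sum_congr rfl fun i _ => ?_
    show f (e i) • coL i x = _
    rw [coL_apply, smul_eq_mul, mul_comm]
  have h3 : Tendsto F atTop (𝓝 f) := by
    rw [Metric.tendsto_atTop]
    intro ε hε
    obtain ⟨m, hm⟩ := shrinking f (ε / 2) (half_pos hε)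
    refine ⟨m, fun n hn => ?_⟩
    rw [dist_comm, dist_eq_norm]
    refine lt_of_le_of_lt ?_ (half_lt_self hε)
    refine ContinuousLinearMap.opNorm_le_bound _ (half_pos hε).le fun x => ?_
    rw [_root_.sub_apply, h2, ← map_sub]
    -- `x - P_n x` has vanishing first `m` coordinates
    have e1 : blk (co (x - blk (co x) 0 n)) 0 m = 0 := by
      apply co_injective
      rw [co_blk, co_zero, co_sub, co_blk]
      funext i
      simp only [Pi.sub_apply, Pi.zero_apply, zero_le, true_and]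
      by_cases hi : i < m
      · rw [if_pos hi, if_pos (lt_of_lt_of_le hi hn), sub_self]
      · rw [if_neg hi]
    have h4 := hm (x - blk (co x) 0 n)
    rw [e1, sub_zero] at h4
    rw [Real.norm_eq_abs]
    refine h4.trans (mul_le_mul_of_nonneg_left ?_ (half_pos hε).le)
    -- the norm of the tail
    rw [norm_le_iff _ (norm_nonneg _), co_sub, co_blk]
    have h5 := (NB_norm x).restrict (fun i => ¬ (0 ≤ i ∧ i < n))
    have e2 : (co x - fun i => if 0 ≤ i ∧ i < n then co x i else 0) =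
        fun i => if ¬ (0 ≤ i ∧ i < n) then co x i else 0 := by
      funext i
      rw [Pi.sub_apply]
      by_cases hi : 0 ≤ i ∧ i < n
      · rw [if_pos hi, if_neg (not_not.2 hi), sub_self]
      · rw [if_neg hi, if_pos hi, sub_zero]
    rw [e2]
    exact h5
  have h4 : Tendsto (fun n => φ (F n)) atTop (𝓝 (φ f)) := (φ.continuous.tendsto f).comp h3
  have h5 : Tendsto (fun n => φ (F n)) atTop (𝓝 (f x)) := by
    simp only [h1]
    exact (f.continuous.tendsto x).comp hx
  exact tendsto_nhds_unique h4 h5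

end USM
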