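import Pool.Agent.Helper51.USM.Basic

/-! # The Banach space -/

namespace USM

open Filter Topology
open scoped ENNReal

/-- The norming set as a type. -/
def WT : Type := {f : ℕ →₀ ℝ // ∃ r, IsW r f}

/-- Evaluation at the coordinate `i`, as a bounded function on the norming set. -/
noncomputable def eb (i : ℕ) : lp (fun _ : WT => ℝ) ∞ :=
  ⟨fun f => f.1 i, memℓp_infty ⟨1, by
    rintro _ ⟨⟨f, r, hf⟩, rfl⟩
    exact hf.abs_le i⟩⟩

/-- The space: closed span of the coordinate evaluations in the bounded functions. -/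
def XS : Type := ↥(Submodule.span ℝ (Set.range eb)).topologicalClosure

noncomputable instance : NormedAddCommGroup XS :=
  inferInstanceAs (NormedAddCommGroup ↥(Submodule.span ℝ (Set.range eb)).topologicalClosure)

noncomputable instance : NormedSpace ℝ XS :=
  inferInstanceAs (NormedSpace ℝ ↥(Submodule.span ℝ (Set.range eb)).topologicalClosure)

instance : CompleteSpace XS :=
  inferInstanceAs (CompleteSpace ↥(Submodule.span ℝ (Set.range eb)).topologicalClosure)

/-- The underlying bounded function. -/
noncomputable def XS.val (x : XS) : lp (fun _ : WT => ℝ) ∞ :=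
  Subtype.val (show ↥(Submodule.span ℝ (Set.range eb)).topologicalClosure from x)

theorem XS.ext {x y : XS} (h : x.val = y.val) : x = y := Subtype.ext h

theorem XS.norm_val (x : XS) : ‖x.val‖ = ‖x‖ := rfl

theorem XS.mem_val (x : XS) : x.val ∈ (Submodule.span ℝ (Set.range eb)).topologicalClosure :=
  Subtype.prop (show ↥(Submodule.span ℝ (Set.range eb)).topologicalClosure from x)

/-- The basis. -/
noncomputable def e (i : ℕ) : XS :=
  (⟨eb i, Submodule.le_topologicalClosure _ (Submodule.subset_span ⟨i, rfl⟩)⟩ :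
    ↥(Submodule.span ℝ (Set.range eb)).topologicalClosure)

theorem val_e (i : ℕ) : (e i).val = eb i := rfl

/-- The coordinates of a vector. -/
noncomputable def co (x : XS) (i : ℕ) : ℝ :=
  (x.val : WT → ℝ) ⟨Finsupp.single i 1, ⊤, IsW.basis i 1 (by simp)⟩

theorem co_add (x y : XS) : co (x + y) = co x + co y := rfl

theorem co_sub (x y : XS) : co (x - y) = co x - co y := rfl

theorem co_smul (c : ℝ) (x : XS) : co (c • x) = c • co x := rfl

theorem co_zero : co 0 = 0 := rfl

theorem co_sum {ι : Type} (s : Finset ι) (x : ι → XS) : co (∑ i ∈ s, x i) = ∑ i ∈ s, co (x i) := by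
  classical
  induction s using Finset.induction_on with
  | empty => simp [co_zero]
  | insert a s ha ih => rw [Finset.sum_insert ha, Finset.sum_insert ha, co_add, ih]

theorem co_e (i : ℕ) : co (e i) = Pi.single i 1 := by
  funext j
  show (Finsupp.single j (1 : ℝ)) i = _
  rw [Finsupp.single_apply, Pi.single_apply]

/-- The coordinates in the ambient space. -/
noncomputable def xsp_co (x : lp (fun _ : WT => ℝ) ∞) (i : ℕ) : ℝ :=
  (x : WT → ℝ) ⟨Finsupp.single i 1, ⊤, IsW.basis i 1 (by simp)⟩

theorem xsp_eval_continuous (f : WT) :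
    Continuous fun x : lp (fun _ : WT => ℝ) ∞ => (x : WT → ℝ) f := by
  have hlip : LipschitzWith 1 fun x : lp (fun _ : WT => ℝ) ∞ => (x : WT → ℝ) f := by
    refine LipschitzWith.of_dist_le_mul fun x y => ?_
    rw [NNReal.coe_one, one_mul, dist_eq_norm, dist_eq_norm]
    have := lp.norm_apply_le_norm (ENNReal.top_ne_zero) (x - y) f
    simpa using this
  exact hlip.continuous

/-- The value of `x` at a functional is given by the coordinates, ambient form. -/
theorem xsp_apply (x : lp (fun _ : WT => ℝ) ∞)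
    (hx : x ∈ (Submodule.span ℝ (Set.range eb)).topologicalClosure) (f : WT) :
    (x : WT → ℝ) f = pr f.1 (xsp_co x) := by
  let K : Submodule ℝ (lp (fun _ : WT => ℝ) ∞) :=
    { carrier := {x | (x : WT → ℝ) f = pr f.1 (xsp_co x)}
      add_mem' := by
        intro a b ha hb
        simp only [Set.mem_ofPred_eq] at ha hb ⊢
        have h1 : xsp_co (a + b) = xsp_co a + xsp_co b := rfl
        rw [h1, pr_add, ← ha, ← hb]
        rfl
      zero_mem' := by
        simp only [Set.mem_ofPred_eq]
        have h1 : xsp_co 0 = 0 := rfl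
        rw [h1, pr_zero]
        rfl
      smul_mem' := by
        intro c a ha
        simp only [Set.mem_ofPred_eq] at ha ⊢
        have h1 : xsp_co (c • a) = c • xsp_co a := rfl
        rw [h1, pr_smul, ← ha]
        rfl }
  have hK : (Submodule.span ℝ (Set.range eb)).topologicalClosure ≤ K := by
    refine Submodule.topologicalClosure_minimal _ ?_ ?_
    · rw [Submodule.span_le]
      rintro _ ⟨i, rfl⟩
      show (eb i : WT → ℝ) f = pr f.1 (xsp_co (eb i))
      have h1 : xsp_co (eb i) = fun j => if j = i then 1 else 0 := by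
        funext j
        show (Finsupp.single j (1 : ℝ)) i = _
        rw [Finsupp.single_apply]
      rw [h1, pr_eq_sum]
      show f.1 i = _
      simp only [mul_ite, mul_one, mul_zero]
      rw [Finset.sum_ite_eq']
      split_ifs with h
      · rfl
      · exact Finsupp.notMem_support_iff.1 h
    · have h1 : Continuous fun x : lp (fun _ : WT => ℝ) ∞ => (x : WT → ℝ) f :=
        xsp_eval_continuous f
      have h2 : Continuous fun x : lp (fun _ : WT => ℝ) ∞ => pr f.1 (xsp_co x) := by
        simp only [pr_eq_sum]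
        refine continuous_finsetSum _ fun i _ => ?_
        exact continuous_const.mul (xsp_eval_continuous _)
      exact isClosed_eq h1 h2
  exact hK hx

/-- The value of `x` at a functional is given by the coordinates. -/
theorem apply_eq (x : XS) (f : WT) : (x.val : WT → ℝ) f = pr f.1 (co x) :=
  xsp_apply x.val x.mem_val f

theorem norm_le_iff (x : XS) {C : ℝ} (hC : 0 ≤ C) : ‖x‖ ≤ C ↔ NB (co x) C := by
  constructor
  · intro h r f hf
    rw [← apply_eq x ⟨f, r, hf⟩]
    refine (le_abs_self _).trans ?_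
    have := lp.norm_apply_le_norm (ENNReal.top_ne_zero) x.val ⟨f, r, hf⟩
    rw [Real.norm_eq_abs] at this
    exact this.trans h
  · intro h
    refine lp.norm_le_of_forall_le (f := x.val) hC ?_
    rintro ⟨f, r, hf⟩
    have h1 := h.abs_le hf
    rw [← apply_eq x ⟨f, r, hf⟩] at h1
    exact h1

theorem NB_norm (x : XS) : NB (co x) ‖x‖ := (norm_le_iff x (norm_nonneg x)).1 le_rfl

theorem co_injective : Function.Injective co := by
  intro x y hxy
  have h : ‖x - y‖ ≤ 0 := by
    rw [norm_le_iff _ le_rfl, co_sub, hxy, sub_self]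
    intro r f _
    rw [pr_zero]
  exact sub_eq_zero.1 (norm_le_zero_iff.1 h)

/-- The coordinate functionals are continuous. -/
noncomputable def coL (i : ℕ) : XS →L[ℝ] ℝ :=
  LinearMap.mkContinuous
    { toFun := fun x => co x i
      map_add' := fun _ _ => rfl
      map_smul' := fun _ _ => rfl } 1 (fun x => by
        rw [one_mul]
        exact (NB_norm x).coord i)

theorem coL_apply (i : ℕ) (x : XS) : coL i x = co x i := rfl

/-- The finite sum `∑_{m ≤ i < n} z i • e i`. -/
noncomputable def blk (z : ℕ → ℝ) (m n : ℕ) : XS := ∑ i ∈ Finset.Ico m n, z i • e i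

theorem co_blk (z : ℕ → ℝ) (m n : ℕ) :
    co (blk z m n) = fun i => if m ≤ i ∧ i < n then z i else 0 := by
  unfold blk
  rw [co_sum]
  funext i
  rw [Finset.sum_apply]
  have h : ∀ j ∈ Finset.Ico m n, co (z j • e j) i = if i = j then z j else 0 := by
    intro j _
    rw [co_smul, co_e, Pi.smul_apply, Pi.single_apply, smul_eq_mul]
    split_ifs <;> simp
  rw [Finset.sum_congr rfl h, Finset.sum_ite_eq]
  simp only [Finset.mem_Ico]

theorem norm_blk_le (x : XS) (m n : ℕ) : ‖blk (co x) m n‖ ≤ ‖x‖ := by
  rw [norm_le_iff _ (norm_nonneg x), co_blk]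
  exact (NB_norm x).restrict (fun i => m ≤ i ∧ i < n)

theorem xsp_blk_sub (x y : XS) (n : ℕ) :
    blk (co (x - y)) 0 n = blk (co x) 0 n - blk (co y) 0 n := by
  unfold blk
  rw [co_sub, ← Finset.sum_sub_distrib]
  exact Finset.sum_congr rfl fun i _ => by rw [Pi.sub_apply, sub_smul]

theorem xsp_span (x : XS) (hx : x.val ∈ Submodule.span ℝ (Set.range eb)) :
    ∃ N : ℕ, ∀ i, N ≤ i → co x i = 0 := by
  have key : ∃ N : ℕ, ∀ i, N ≤ i → xsp_co x.val i = 0 := by
    generalize x.val = v at hx
    induction hx using Submodule.span_induction with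
    | mem y hy =>
      obtain ⟨k, rfl⟩ := hy
      refine ⟨k + 1, fun i hi => ?_⟩
      show (Finsupp.single i (1 : ℝ)) k = _
      rw [Finsupp.single_apply, if_neg (by omega)]
    | zero => exact ⟨0, fun i _ => rfl⟩
    | add a b _ _ ha hb =>
      obtain ⟨N, hN⟩ := ha
      obtain ⟨M, hM⟩ := hb
      refine ⟨max N M, fun i hi => ?_⟩
      show xsp_co a i + xsp_co b i = 0
      rw [hN i (le_trans (le_max_left _ _) hi), hM i (le_trans (le_max_right _ _) hi), add_zero]
    | smul c a _ ha =>
      obtain ⟨N, hN⟩ := ha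
      refine ⟨N, fun i hi => ?_⟩
      show c * xsp_co a i = 0
      rw [hN i hi, mul_zero]
  exact key

theorem xsp_blk_eq (x : XS) {N : ℕ} (hN : ∀ i, N ≤ i → co x i = 0) {n : ℕ} (hn : N ≤ n) :
    blk (co x) 0 n = x := by
  apply co_injective
  rw [co_blk]
  funext i
  by_cases h : i < n
  · simp [h]
  · simp only [not_lt] at h
    rw [if_neg (by omega), hN i (hn.trans h)]

/-- Tails tend to zero. -/
theorem tendsto_blk (x : XS) : Tendsto (fun n => blk (co x) 0 n) atTop (𝓝 x) := by
  rw [Metric.tendsto_atTop]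
  intro ε hε
  have hx : x.val ∈ closure ((Submodule.span ℝ (Set.range eb) : Submodule ℝ _) :
      Set (lp (fun _ : WT => ℝ) ∞)) := x.mem_val
  rw [Metric.mem_closure_iff] at hx
  obtain ⟨v, hv, hxv⟩ := hx (ε / 2) (by positivity)
  let y : XS := (⟨v, Submodule.le_topologicalClosure _ hv⟩ :
    ↥(Submodule.span ℝ (Set.range eb)).topologicalClosure)
  have hxy : ‖x - y‖ < ε / 2 := by
    rw [dist_eq_norm] at hxv
    exact hxv
  obtain ⟨N, hN⟩ := xsp_span y hv
  refine ⟨N, fun n hn => ?_⟩
  rw [dist_eq_norm]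
  have h1 : blk (co x) 0 n - x = blk (co (x - y)) 0 n - (x - y) := by
    rw [xsp_blk_sub, xsp_blk_eq y hN hn]
    abel
  rw [h1]
  calc ‖blk (co (x - y)) 0 n - (x - y)‖ ≤ ‖blk (co (x - y)) 0 n‖ + ‖x - y‖ := norm_sub_le _ _
    _ ≤ ‖x - y‖ + ‖x - y‖ := by
        have := norm_blk_le (x - y) 0 n
        linarith
    _ < ε := by linarith

end USM
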